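import Pool.Agent.H31.HCBlockUpper

/-!
# Block factors on `ℤ`: stationarity, finite dependence, density
-/

set_option autoImplicit false

open MeasureTheory ProbabilityTheory

namespace Pool.Agent.H31.HCB

section

variable {α : Type*} [MeasurableSpace α] (ν : Measure α) [IsProbabilityMeasure ν]

/-- `X_i = f (U_i, U_{i-1}, …, U_{i-r+1})` -/
def bf {r : ℕ} (f : (Fin r → α) → Bool) (u : ℤ → α) (i : ℤ) : Bool := f (fun j : Fin r => u (i - j))

theorem measurable_bf {r : ℕ} {f : (Fin r → α) → Bool} (hf : Measurable f) : Measurable (bf f) := by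
  refine measurable_pi_iff.2 fun i => ?_
  exact hf.comp (by fun_prop)

theorem sub_inj (r : ℕ) (i : ℤ) : Function.Injective (fun j : Fin r => i - (j : ℤ)) := by
  intro a b h
  have h' : i - ((a : ℕ) : ℤ) = i - ((b : ℕ) : ℤ) := h
  exact Fin.ext (by omega)

/-- The density of a block factor. -/
theorem density_bf {r : ℕ} {f : (Fin r → α) → Bool} (hf : Measurable f) :
    ((iid ν ℤ).map (bf f)).real {x | x 0 = true} = (iid ν (Fin r)).real {w | f w = true} := by
  have hs : MeasurableSet {x : ℤ → Bool | x 0 = true} :=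
    measurableSet_eq_fun (measurable_pi_apply 0) measurable_const
  have hs' : MeasurableSet {w : Fin r → α | f w = true} :=
    hf (MeasurableSet.of_discrete (s := {true}))
  rw [map_measureReal_apply (measurable_bf hf) hs]
  have h := (mp_inj ν (sub_inj r 0)).measure_preimage hs'.nullMeasurableSet
  unfold Measure.real
  rw [← h]
  rfl

/-- The hard-core condition for the windows of a hard-core block factor. -/
theorem window_of_hard {r : ℕ} {f : (Fin r → α) → Bool} (hf : Measurable f)
    (H : ∀ᵐ x ∂((iid ν ℤ).map (bf f)), ∀ i : ℤ, ¬ (x i = true ∧ x (i + 1) = true)) :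
    ∀ᵐ w ∂(iid ν (Fin (r + 1))),
      ¬ (f (fun j => w j.succ) = true ∧ f (fun j => w j.castSucc) = true) := by
  have h1 := ae_of_ae_map (measurable_bf hf).aemeasurable H
  have mp := mp_inj ν (sub_inj (r + 1) 1)
  have hm : MeasurableSet {w : Fin (r + 1) → α |
      ¬ (f (fun j => w j.succ) = true ∧ f (fun j => w j.castSucc) = true)} := by
    have m1 : Measurable (fun w : Fin (r + 1) → α => (f (fun j => w j.succ), f (fun j => w j.castSucc))) :=
      (hf.comp (by fun_prop)).prodMk (hf.comp (by fun_prop))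
    exact m1 (MeasurableSet.of_discrete (s := {p : Bool × Bool | ¬ (p.1 = true ∧ p.2 = true)}))
  rw [← mp.map_eq, ae_map_iff mp.measurable.aemeasurable hm]
  filter_upwards [h1] with u hu
  have h2 := hu 0
  unfold bf at h2
  have e1 : (fun j : Fin r => u (0 - (j : ℤ))) = fun j : Fin r => u (1 - ((j.succ : Fin (r + 1)) : ℤ)) := by
    funext j
    congr 1
    rw [Fin.val_succ]
    push_cast
    ring
  have e2 : (fun j : Fin r => u (0 + 1 - (j : ℤ))) =
      fun j : Fin r => u (1 - ((j.castSucc : Fin (r + 1)) : ℤ)) := by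
    funext j
    congr 1
  rw [e1, e2] at h2
  exact h2

/-- A hard-core block factor with windows of length `2 m + 1` has density at most `m / (2 m + 1)`. -/
theorem density_le {m : ℕ} {f : (Fin (2 * m + 1) → α) → Bool} (hf : Measurable f)
    (H : ∀ᵐ x ∂((iid ν ℤ).map (bf f)), ∀ i : ℤ, ¬ (x i = true ∧ x (i + 1) = true)) :
    ((iid ν ℤ).map (bf f)).real {x | x 0 = true} ≤ m / (2 * m + 1) := by
  rw [density_bf ν hf]
  exact window_bound ν m hf (window_of_hard ν hf H)

omit [MeasurableSpace α] in
/-- A block factor is a block factor with longer windows. -/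
theorem bf_succ {r : ℕ} (f : (Fin r → α) → Bool) :
    bf f = bf (fun w : Fin (r + 1) → α => f (fun j => w j.castSucc)) := by
  funext u i
  unfold bf
  congr 1

/-- Block factors are stationary. -/
theorem stat_bf {r : ℕ} {f : (Fin r → α) → Bool} (hf : Measurable f) :
    ((iid ν ℤ).map (bf f)).map (fun (x : ℤ → Bool) (i : ℤ) => x (i + 1)) = (iid ν ℤ).map (bf f) := by
  have m1 : Measurable (fun (x : ℤ → Bool) (i : ℤ) => x (i + 1)) := by fun_prop
  have m2 : Measurable (fun (x : ℤ → α) (i : ℤ) => x (i + 1)) := by fun_prop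
  rw [Measure.map_map m1 (measurable_bf hf)]
  have e : (fun (x : ℤ → Bool) (i : ℤ) => x (i + 1)) ∘ (bf f : (ℤ → α) → ℤ → Bool) =
      bf f ∘ (fun (x : ℤ → α) (i : ℤ) => x (i + 1)) := by
    funext u i
    simp only [Function.comp_apply, bf]
    congr 1
    funext l
    congr 1
    ring
  rw [e, ← Measure.map_map (measurable_bf hf) m2, iid_inj ν (add_left_injective (1 : ℤ))]

/-- A `(k + 1)`-block factor is `k`-dependent. -/
theorem dep_bf {k : ℕ} {f : (Fin (k + 1) → α) → Bool} (hf : Measurable f) (A B : Set ℤ)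
    (hAB : ∀ a ∈ A, ∀ b ∈ B, (k : ℤ) < |a - b|) :
    IndepFun (fun (x : ℤ → Bool) (a : A) => x a) (fun (x : ℤ → Bool) (b : B) => x b)
      ((iid ν ℤ).map (bf f)) := by
  rw [IndepFun_iff_Indep]
  have hm : ∀ S : Set ℤ, Measurable (fun (x : ℤ → Bool) (a : S) => x a) := fun S => by fun_prop
  have key : IndepFun (fun (u : ℤ → α) (a : A) => bf f u a)
      (fun (u : ℤ → α) (b : B) => bf f u b) (iid ν ℤ) := by
    set m : ℤ → MeasurableSpace (ℤ → α) := fun i =>
      MeasurableSpace.comap (fun u : ℤ → α => u i) inferInstance with hmdef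
    have hind : iIndep m (iid ν ℤ) := by
      have h := iIndepFun_infinitePi (P := fun _ : ℤ => ν)
        (X := fun (_ : ℤ) (z : α) => z) (fun _ => measurable_id)
      exact h
    have hle : ∀ i, m i ≤ (MeasurableSpace.pi : MeasurableSpace (ℤ → α)) :=
      fun i => (measurable_pi_apply i).comap_le
    let S : Set ℤ → Set ℤ := fun A => {i | ∃ a ∈ A, a - k ≤ i ∧ i ≤ a}
    have hdis : Disjoint (S A) (S B) := by
      rw [Set.disjoint_left]
      rintro i ⟨a, ha, h1, h2⟩ ⟨b, hb, h3, h4⟩
      have := hAB a ha b hb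
      rcases abs_cases (a - b) with ⟨h5, _⟩ | ⟨h5, _⟩ <;> omega
    have hI := indep_iSup_of_disjoint hle hind hdis
    have hcm : ∀ C : Set ℤ, MeasurableSpace.comap (fun (u : ℤ → α) (a : C) => bf f u a)
        inferInstance ≤ ⨆ i ∈ S C, m i := by
      intro C
      rw [← measurable_iff_comap_le]
      refine @measurable_pi_iff _ _ _ (⨆ i ∈ S C, m i) _ _ |>.2 fun a => ?_
      refine @Measurable.comp _ _ _ (⨆ i ∈ S C, m i) _ _ _ _ hf ?_
      refine @measurable_pi_iff _ _ _ (⨆ i ∈ S C, m i) _ _ |>.2 fun j => ?_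
      rw [measurable_iff_comap_le]
      refine le_iSup₂_of_le (f := fun i (_ : i ∈ S C) => m i) ((a : ℤ) - j) ?_ le_rfl
      exact ⟨a, a.2, by have := j.2; omega, by omega⟩
    rw [IndepFun_iff_Indep]
    exact indep_of_indep_of_le_left (indep_of_indep_of_le_right hI (hcm B)) (hcm A)
  rw [← IndepFun_iff_Indep, indepFun_iff_measure_inter_preimage_eq_mul]
  rw [indepFun_iff_measure_inter_preimage_eq_mul] at key
  intro s t hs ht
  have := key s t hs ht
  rw [Measure.map_apply (measurable_bf hf) ((hm A hs).inter (hm B ht)),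
    Measure.map_apply (measurable_bf hf) (hm A hs), Measure.map_apply (measurable_bf hf) (hm B ht)]
  exact this

omit [IsProbabilityMeasure ν] in
/-- The hard-core condition for a block factor which satisfies it everywhere. -/
theorem hard_bf {r : ℕ} {f : (Fin r → α) → Bool} (hf : Measurable f)
    (h : ∀ (u : ℤ → α) (i : ℤ), ¬ (bf f u i = true ∧ bf f u (i + 1) = true)) :
    ∀ᵐ x ∂((iid ν ℤ).map (bf f)), ∀ i : ℤ, ¬ (x i = true ∧ x (i + 1) = true) := by
  rw [ae_map_iff (measurable_bf hf).aemeasurable]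
  · exact Filter.Eventually.of_forall fun u i => h u i
  · have : {x : ℤ → Bool | ∀ i : ℤ, ¬ (x i = true ∧ x (i + 1) = true)} =
        ⋂ i : ℤ, {x : ℤ → Bool | ¬ (x i = true ∧ x (i + 1) = true)} := by
      ext x; simp
    rw [this]
    refine MeasurableSet.iInter fun i => ?_
    have hp : Measurable (fun x : ℤ → Bool => (x i, x (i + 1))) :=
      (measurable_pi_apply i).prodMk (measurable_pi_apply (i + 1))
    exact hp (MeasurableSet.of_discrete (s := {p : Bool × Bool | ¬ (p.1 = true ∧ p.2 = true)}))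

end

section maxima

/-- `w` has a strict maximum at an odd position. -/
noncomputable def maxf (k : ℕ) (w : Fin (k + 1) → ℝ) : Bool :=
  @decide (∃ j : Fin (k + 1), Odd (j : ℕ) ∧ ∀ l, l ≠ j → w l < w j) (Classical.propDecidable _)

theorem maxf_true {k : ℕ} {w : Fin (k + 1) → ℝ} : maxf k w = true ↔
    ∃ j : Fin (k + 1), Odd (j : ℕ) ∧ ∀ l, l ≠ j → w l < w j := by
  unfold maxf
  exact @decide_eq_true_iff _ (Classical.propDecidable _)

/-- The strict maximum is at `j`. -/
def topAt (k : ℕ) (j : Fin (k + 1)) : Set (Fin (k + 1) → ℝ) := {w | ∀ l, l ≠ j → w l < w j}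

theorem measurableSet_at (k : ℕ) (j : Fin (k + 1)) : MeasurableSet (topAt k j) := by
  have e : topAt k j = ⋂ l : Fin (k + 1), {w | l ≠ j → w l < w j} := by
    ext w
    simp [topAt]
  rw [e]
  refine MeasurableSet.iInter fun l => ?_
  by_cases h : l = j
  · simp [h]
  · have e2 : {w : Fin (k + 1) → ℝ | l ≠ j → w l < w j} = {w | w l < w j} := by
      ext w
      simp [h]
    rw [e2]
    exact measurableSet_lt (measurable_pi_apply l) (measurable_pi_apply j)

theorem maxf_preimage (k : ℕ) : {w | maxf k w = true} =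
    ⋃ j ∈ Finset.univ.filter (fun j : Fin (k + 1) => Odd (j : ℕ)), topAt k j := by
  ext w
  simp only [Set.mem_ofPred_eq, maxf_true, Set.mem_iUnion, Finset.mem_filter, Finset.mem_univ,
    true_and, exists_prop, topAt]

theorem measurable_maxf (k : ℕ) : Measurable (maxf k) := by
  apply measurable_to_bool
  have e : maxf k ⁻¹' {true} = {w | maxf k w = true} := rfl
  rw [e, maxf_preimage]
  exact Finset.measurableSet_biUnion _ fun j _ => measurableSet_at k j

theorem maxf_hard {k : ℕ} (hk : Even k) (u : ℤ → ℝ) (i : ℤ) :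
    ¬ (bf (maxf k) u i = true ∧ bf (maxf k) u (i + 1) = true) := by
  rintro ⟨h1, h2⟩
  unfold bf at h1 h2
  rw [maxf_true] at h1 h2
  obtain ⟨j, hjo, hmax⟩ := h1
  obtain ⟨j', hjo', hmax'⟩ := h2
  have hj := j.2
  have hj' := j'.2
  have e1 : (j : ℕ) ≠ k := by
    intro h
    rw [h] at hjo
    exact (Nat.not_odd_iff_even.2 hk) hjo
  have e2 : 1 ≤ (j' : ℕ) := hjo'.pos
  by_cases h : (j' : ℕ) = j + 1
  · rw [h] at hjo'
    exact (Nat.not_odd_iff_even.2 hjo.add_one) hjo'
  · have a1 := hmax ⟨j' - 1, by omega⟩ (by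
      intro h'
      have := congrArg (fun z : Fin (k + 1) => (z : ℕ)) h'
      simp only at this
      omega)
    have a2 := hmax' ⟨j + 1, by omega⟩ (by
      intro h'
      have := congrArg (fun z : Fin (k + 1) => (z : ℕ)) h'
      simp only at this
      omega)
    have c1 : (i - (((j' : ℕ) - 1 : ℕ) : ℤ)) = i + 1 - (j' : ℕ) := by
      rw [Nat.cast_sub e2]; push_cast; ring
    have c2 : (i + 1 - (((j : ℕ) + 1 : ℕ) : ℤ)) = i - (j : ℕ) := by push_cast; ring
    simp only at a1 a2
    rw [c1] at a1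
    rw [c2] at a2
    exact lt_asymm a1 a2

theorem card_odd (m : ℕ) :
    (Finset.univ.filter (fun j : Fin (2 * m + 1) => Odd (j : ℕ))).card = m := by
  classical
  have e : Finset.univ.filter (fun j : Fin (2 * m + 1) => Odd (j : ℕ)) =
      Finset.univ.image (fun i : Fin m => (⟨2 * i + 1, by omega⟩ : Fin (2 * m + 1))) := by
    ext j
    simp only [Finset.mem_filter, Finset.mem_univ, true_and, Finset.mem_image]
    constructor
    · rintro ⟨t, ht⟩
      exact ⟨⟨t, by have := j.2; omega⟩, Fin.ext ht.symm⟩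
    · rintro ⟨i, rfl⟩
      exact ⟨i, rfl⟩
  rw [e, Finset.card_image_of_injective, Finset.card_univ, Fintype.card_fin]
  intro a b h
  have := congrArg (fun z : Fin (2 * m + 1) => (z : ℕ)) h
  simp only at this
  exact Fin.ext (by omega)

variable (ν : Measure ℝ) [IsProbabilityMeasure ν] [NullSingletonClass ν]

theorem ae_ne (k : ℕ) (i : Fin (k + 1)) (j : Fin k) :
    ∀ᵐ w ∂(iid ν (Fin (k + 1))), w i ≠ w (i.succAbove j) := by
  have hm : MeasurableSet {z : ℝ × (Fin k → ℝ) | z.1 ≠ z.2 j} := by
    have : MeasurableSet {z : ℝ × (Fin k → ℝ) | z.1 = z.2 j} :=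
      measurableSet_eq_fun measurable_fst (by fun_prop)
    exact this.compl
  have h1 : ∀ᵐ z ∂(ν.prod (iid ν (Fin k))), z.1 ≠ z.2 j := by
    rw [Measure.ae_prod_iff_ae_ae hm]
    refine (Measure.ae_ae_comm (p := fun (x : ℝ) (v : Fin k → ℝ) => x ≠ v j) hm).2 ?_
    refine Filter.Eventually.of_forall fun v => ?_
    rw [ae_iff]
    simp
  exact (mp_split ν k i).quasiMeasurePreserving.ae h1

theorem ae_injective (k : ℕ) : ∀ᵐ w ∂(iid ν (Fin (k + 1))), Function.Injective w := by
  have h : ∀ᵐ w ∂(iid ν (Fin (k + 1))), ∀ (i : Fin (k + 1)) (j : Fin k), w i ≠ w (i.succAbove j) := by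
    rw [ae_all_iff]
    intro i
    rw [ae_all_iff]
    exact ae_ne ν k i
  filter_upwards [h] with w hw a b hab
  by_contra hne
  obtain ⟨j, hj⟩ := Fin.exists_succAbove_eq (Ne.symm hne)
  exact hw a j (by rw [hj]; exact hab)

omit [NullSingletonClass ν] in
theorem top_real (k : ℕ) (j : Fin (k + 1)) :
    (iid ν (Fin (k + 1))).real (topAt k j) = (iid ν (Fin (k + 1))).real (topAt k 0) := by
  have mp := mp_inj ν (Equiv.swap (0 : Fin (k + 1)) j).injective
  have h := mp.measure_preimage (measurableSet_at k 0).nullMeasurableSet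
  unfold Measure.real
  rw [← h]
  congr 2
  ext w
  simp only [topAt, Set.mem_ofPred_eq, Set.mem_preimage, Equiv.swap_apply_left]
  constructor
  · intro h l hl
    apply h
    intro h'
    apply hl
    have := congrArg (Equiv.swap (0 : Fin (k + 1)) j) h'
    rwa [Equiv.swap_apply_self, Equiv.swap_apply_right] at this
  · intro h l hl
    have := h (Equiv.swap 0 j l) (by
      intro h'
      apply hl
      have := congrArg (Equiv.swap (0 : Fin (k + 1)) j) h'
      rwa [Equiv.swap_apply_self, Equiv.swap_apply_left] at this)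
    rwa [Equiv.swap_apply_self] at this

theorem top_disjoint (k : ℕ) (s : Finset (Fin (k + 1))) :
    (s : Set (Fin (k + 1))).PairwiseDisjoint (topAt k) := by
  intro a _ b _ hab
  rw [Function.onFun, Set.disjoint_left]
  intro w h1 h2
  exact lt_asymm (h1 b hab.symm) (h2 a hab)

theorem top_zero_real (k : ℕ) : ((k : ℝ) + 1) * (iid ν (Fin (k + 1))).real (topAt k 0) = 1 := by
  have h1 : (iid ν (Fin (k + 1))).real (⋃ j ∈ (Finset.univ : Finset (Fin (k + 1))), topAt k j) = 1 := by
    have hmem : (⋃ j ∈ (Finset.univ : Finset (Fin (k + 1))), topAt k j) ∈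
        ae (iid ν (Fin (k + 1))) := by
      filter_upwards [ae_injective ν k] with w hw
      obtain ⟨j, hj⟩ := Finite.exists_max w
      simp only [Set.mem_iUnion, Finset.mem_univ, exists_true_left]
      exact ⟨j, fun l hl => lt_of_le_of_ne (hj l) fun h => hl (hw h)⟩
    rw [Measure.real, (mem_ae_iff_prob_eq_one
      (Finset.measurableSet_biUnion _ fun j _ => measurableSet_at k j)).1 hmem]
    simp
  rw [measureReal_biUnion_finset (top_disjoint k _) (fun j _ => measurableSet_at k j)] at h1
  rw [Finset.sum_congr rfl (fun j _ => top_real ν k j)] at h1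
  simpa using h1

/-- The density of the block factor. -/
theorem maxf_real (m : ℕ) :
    (iid ν (Fin (2 * m + 1))).real {w | maxf (2 * m) w = true} = m / (2 * m + 1) := by
  rw [maxf_preimage, measureReal_biUnion_finset (top_disjoint (2 * m) _)
    (fun j _ => measurableSet_at (2 * m) j)]
  rw [Finset.sum_congr rfl (fun j _ => top_real ν (2 * m) j), Finset.sum_const, card_odd,
    nsmul_eq_mul]
  have h := top_zero_real ν (2 * m)
  push_cast at h
  rw [eq_div_iff (by positivity)]
  linear_combination (m : ℝ) * h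

end maxima

end Pool.Agent.H31.HCB
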