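import Pool.Agent.H31.HCBlockTwo

/-!
# A one-parameter family of critical hard-core block factors
-/

set_option autoImplicit false

open MeasureTheory ProbabilityTheory

namespace Pool.Agent.H31.HCB

open Classical in
/-- `1` if `x` exceeds the threshold `c`, and `0` otherwise. -/
noncomputable def hh (c x : ℝ) : ℕ := if c < x then 1 else 0

/-- The position `s` of the strict maximum of `v` on `j, …, j + k - 1` satisfies: `s + h (v s)` has
parity `b`. -/
def parh (c : ℝ) (v : ℕ → ℝ) (j k b : ℕ) : Prop := ∃ s, (s + hh c (v s)) % 2 = b ∧ am v j k s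

theorem parh_unique {c : ℝ} {v : ℕ → ℝ} {j k b b' : ℕ} (h : parh c v j k b) (h' : parh c v j k b') :
    b = b' := by
  obtain ⟨s, h1, h2⟩ := h
  obtain ⟨s', h1', h2'⟩ := h'
  rw [← h1, ← h1', am_unique h2 h2']

theorem exists_parh (c : ℝ) {v : ℕ → ℝ} (hv : ∀ i j, i ≠ j → v i ≠ v j) (j k : ℕ) (hk : 0 < k) :
    parh c v j k 0 ∨ parh c v j k 1 := by
  obtain ⟨s, hs⟩ := exists_am hv j k hk
  rcases Nat.mod_two_eq_zero_or_one (s + hh c (v s)) with h | h
  · exact Or.inl ⟨s, h, hs⟩
  · exact Or.inr ⟨s, h, hs⟩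

theorem parh_congr {c : ℝ} {v v' : ℕ → ℝ} {j k b : ℕ} (h : ∀ t, j ≤ t → t < j + k → v t = v' t) :
    parh c v j k b ↔ parh c v' j k b := by
  unfold parh
  refine exists_congr fun s => ?_
  rw [am_congr h]
  constructor
  · rintro ⟨h1, h2⟩
    exact ⟨by rw [← h s h2.1 h2.2.1]; exact h1, h2⟩
  · rintro ⟨h1, h2⟩
    exact ⟨by rw [h s h2.1 h2.2.1]; exact h1, h2⟩

theorem parh_comp {c : ℝ} {v : ℕ → ℝ} {g : ℕ → ℕ} {j k j' b b' : ℕ} (hinj : Function.Injective g)
    (h1 : ∀ t, j ≤ t → t < j + k → j' ≤ g t ∧ g t < j' + k)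
    (h2 : ∀ t, j' ≤ t → t < j' + k → ∃ t', j ≤ t' ∧ t' < j + k ∧ g t' = t)
    (hb : ∀ t, j ≤ t → t < j + k → ∀ x : ℕ, ((t + x) % 2 = b ↔ (g t + x) % 2 = b')) :
    parh c (fun n => v (g n)) j k b ↔ parh c v j' k b' := by
  constructor
  · rintro ⟨s, hs1, hs2⟩
    exact ⟨g s, (hb s hs2.1 hs2.2.1 _).1 hs1, (am_comp hinj h1 h2 ⟨hs2.1, hs2.2.1⟩).1 hs2⟩
  · rintro ⟨s, hs1, hs2⟩
    obtain ⟨s', h3, h4, rfl⟩ := h2 s hs2.1 hs2.2.1
    exact ⟨s', (hb s' h3 h4 _).2 hs1, (am_comp hinj h1 h2 ⟨h3, h4⟩).2 hs2⟩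

theorem cyc_parh {c : ℝ} {v : ℕ → ℝ} {n j k b b' : ℕ} (hn : j + k ≤ n) (hb : b + b' = 1) :
    parh c (fun t => v (cyc n t)) j k b ↔ parh c v (j + 1) k b' := by
  apply parh_comp (cyc_inj n)
  · intro t h1 h2
    unfold cyc
    rw [if_pos (by omega)]
    omega
  · intro t h1 h2
    refine ⟨t - 1, by omega, by omega, ?_⟩
    unfold cyc
    rw [if_pos (by omega)]
    omega
  · intro t h1 h2 x
    unfold cyc
    rw [if_pos (by omega)]
    omega

theorem measurable_hh {β : Type*} [MeasurableSpace β] {a d : β → ℝ} (ha : Measurable a)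
    (hd : Measurable d) : Measurable fun x => hh (a x) (d x) := by
  unfold hh
  exact Measurable.ite (measurableSet_lt ha hd) measurable_const measurable_const

theorem measurable_parh {β : Type*} [MeasurableSpace β] (c : ℝ) {g : β → ℕ → ℝ}
    (hg : ∀ n, Measurable fun x => g x n) (j k b : ℕ) : Measurable fun x => parh c (g x) j k b := by
  unfold parh
  refine Measurable.exists fun s => Measurable.and ?_ (measurable_am hg j k s)
  have h := measurable_hh (a := fun _ : β => c) measurable_const (hg s)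
  have h2 : Measurable fun x => (s + hh c (g x s)) % 2 :=
    (Measurable.of_discrete (f := fun y : ℕ => (s + y) % 2)).comp h
  exact measurableSet_setOfPred.1 (h2 (MeasurableSet.of_discrete (s := {b})))

theorem meas_parh (c : ℝ) (j k b : ℕ) : Measurable fun v : ℕ → ℝ => parh c v j k b :=
  measurable_parh c (g := fun v : ℕ → ℝ => v) (fun n => measurable_pi_apply n) j k b

theorem meas_lt (c : ℝ) (i : ℕ) : Measurable fun v : ℕ → ℝ => c < v i :=
  measurableSet_setOfPred.1 (measurableSet_lt measurable_const (measurable_pi_apply i))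

/-- The defects have probability at most `1 / (2 m + 1)`. -/
theorem defect_le (c : ℝ) (m : ℕ) (hm : 0 < m) :
    (iid unif ℕ).real {v | (parh c v 0 (2 * m) 0 ∧ parh c v 1 (2 * m) 1) ∨
      (parh c v 0 (2 * m) 1 ∧ parh c v 1 (2 * m) 0)} ≤ 1 / (2 * (m : ℝ) + 1) := by
  let E0 : (ℕ → ℝ) → Prop := fun v => am v 0 (2 * m + 1) 0 ∧
    ((c < v 0 ∧ parh c v 1 (2 * m) 0) ∨ (¬ c < v 0 ∧ parh c v 1 (2 * m) 1))
  let E0' : (ℕ → ℝ) → Prop := fun v => am v 0 (2 * m + 1) 0 ∧
    ((c < v 0 ∧ parh c v 1 (2 * m) 1) ∨ (¬ c < v 0 ∧ parh c v 1 (2 * m) 0))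
  let Ek : (ℕ → ℝ) → Prop := fun v => am v 0 (2 * m + 1) (2 * m) ∧
    ((c < v (2 * m) ∧ parh c v 0 (2 * m) 0) ∨ (¬ c < v (2 * m) ∧ parh c v 0 (2 * m) 1))
  have mE0' : Measurable E0' := (meas_am _ _ _).and
    (((meas_lt c 0).and (meas_parh c _ _ _)).or ((meas_lt c 0).not.and (meas_parh c _ _ _)))
  have mEk : Measurable Ek := (meas_am _ _ _).and
    (((meas_lt c _).and (meas_parh c _ _ _)).or ((meas_lt c _).not.and (meas_parh c _ _ _)))
  have h1 : (iid unif ℕ).real {v | (parh c v 0 (2 * m) 0 ∧ parh c v 1 (2 * m) 1) ∨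
      (parh c v 0 (2 * m) 1 ∧ parh c v 1 (2 * m) 0)} ≤
      (iid unif ℕ).real {v | E0 v} + (iid unif ℕ).real {v | Ek v} := by
    refine le_trans ?_ (measureReal_union_le _ _)
    have hle : {v | (parh c v 0 (2 * m) 0 ∧ parh c v 1 (2 * m) 1) ∨
      (parh c v 0 (2 * m) 1 ∧ parh c v 1 (2 * m) 0)} ≤ᵐ[iid unif ℕ]
        ({v | E0 v} ∪ {v | Ek v} : Set (ℕ → ℝ)) := by
      filter_upwards [ae_ne_all unif] with v hv h
      have h' : (parh c v 0 (2 * m) 0 ∧ parh c v 1 (2 * m) 1) ∨
        (parh c v 0 (2 * m) 1 ∧ parh c v 1 (2 * m) 0) := h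
      obtain ⟨s, hs⟩ := exists_am hv 0 (2 * m + 1) (by omega)
      have hsN := hs.2.1
      by_cases c0 : s = 0
      · subst c0
        left
        have a0 : am v 0 (2 * m) 0 := am_restrict hs (by omega) (by omega) (by omega)
        refine ⟨hs, ?_⟩
        have p0 : parh c v 0 (2 * m) ((0 + hh c (v 0)) % 2) := ⟨0, rfl, a0⟩
        by_cases cl : c < v 0
        · have e : (0 + hh c (v 0)) % 2 = 1 := by unfold hh; rw [if_pos cl]
          rw [e] at p0
          rcases h' with h' | h'
          · exact absurd (parh_unique p0 h'.1) (by decide)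
          · exact Or.inl ⟨cl, h'.2⟩
        · have e : (0 + hh c (v 0)) % 2 = 0 := by unfold hh; rw [if_neg cl]
          rw [e] at p0
          rcases h' with h' | h'
          · exact Or.inr ⟨cl, h'.2⟩
          · exact absurd (parh_unique p0 h'.1) (by decide)
      · by_cases ck : s = 2 * m
        · subst ck
          right
          have a0 : am v 1 (2 * m) (2 * m) := am_restrict hs (by omega) (by omega) (by omega)
          refine ⟨hs, ?_⟩
          have p0 : parh c v 1 (2 * m) ((2 * m + hh c (v (2 * m))) % 2) := ⟨2 * m, rfl, a0⟩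
          by_cases cl : c < v (2 * m)
          · have e : (2 * m + hh c (v (2 * m))) % 2 = 1 := by unfold hh; rw [if_pos cl]; omega
            rw [e] at p0
            rcases h' with h' | h'
            · exact Or.inl ⟨cl, h'.1⟩
            · exact absurd (parh_unique p0 h'.2) (by decide)
          · have e : (2 * m + hh c (v (2 * m))) % 2 = 0 := by unfold hh; rw [if_neg cl]; omega
            rw [e] at p0
            rcases h' with h' | h'
            · exact absurd (parh_unique p0 h'.2) (by decide)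
            · exact Or.inr ⟨cl, h'.1⟩
        · exfalso
          have a0 : am v 0 (2 * m) s := am_restrict hs (by omega) (by omega) (by omega)
          have a1 : am v 1 (2 * m) s := am_restrict hs (by omega) (by omega) (by omega)
          have p0 : parh c v 0 (2 * m) ((s + hh c (v s)) % 2) := ⟨s, rfl, a0⟩
          have p1 : parh c v 1 (2 * m) ((s + hh c (v s)) % 2) := ⟨s, rfl, a1⟩
          rcases h' with h' | h'
          · have := (parh_unique p0 h'.1).symm.trans (parh_unique p1 h'.2)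
            omega
          · have := (parh_unique p0 h'.1).symm.trans (parh_unique p1 h'.2)
            omega
    unfold Measure.real
    exact ENNReal.toReal_mono (measure_ne_top _ _) (measure_mono_ae hle)
  have h2 : (iid unif ℕ).real {v | Ek v} = (iid unif ℕ).real {v | E0' v} := by
    rw [← real_inv unif (cyc_inj (2 * m)) mEk]
    congr 1
    ext v
    show (am (fun t => v (cyc (2 * m) t)) 0 (2 * m + 1) (2 * m) ∧
      ((c < v (cyc (2 * m) (2 * m)) ∧ parh c (fun t => v (cyc (2 * m) t)) 0 (2 * m) 0) ∨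
      (¬ c < v (cyc (2 * m) (2 * m)) ∧ parh c (fun t => v (cyc (2 * m) t)) 0 (2 * m) 1))) ↔
      (am v 0 (2 * m + 1) 0 ∧
    ((c < v 0 ∧ parh c v 1 (2 * m) 1) ∨ (¬ c < v 0 ∧ parh c v 1 (2 * m) 0)))
    have e0 : cyc (2 * m) (2 * m) = 0 := by
      unfold cyc
      simp
    have e1 : am (fun t => v (cyc (2 * m) t)) 0 (2 * m + 1) (2 * m) ↔ am v 0 (2 * m + 1) 0 := by
      rw [← e0]
      conv_lhs => rw [e0]
      apply am_comp (cyc_inj (2 * m))
      · intro t h1 h2
        unfold cyc
        split_ifs <;> omega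
      · intro t h1 h2
        by_cases ht : t = 0
        · refine ⟨2 * m, by omega, by omega, ?_⟩
          rw [e0, ht]
        · refine ⟨t - 1, by omega, by omega, ?_⟩
          unfold cyc
          rw [if_pos (by omega)]
          omega
      · omega
    rw [e1, e0, cyc_parh (n := 2 * m) (j := 0) (b := 0) (b' := 1) (by omega) rfl,
      cyc_parh (n := 2 * m) (j := 0) (b := 1) (b' := 0) (by omega) rfl]
  have h3 : Disjoint {v : ℕ → ℝ | E0 v} {v | E0' v} := by
    rw [Set.disjoint_left]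
    rintro v ⟨_, h3⟩ ⟨_, h4⟩
    rcases h3 with h3 | h3 <;> rcases h4 with h4 | h4
    · exact absurd (parh_unique h3.2 h4.2) (by decide)
    · exact h4.1 h3.1
    · exact h3.1 h4.1
    · exact absurd (parh_unique h3.2 h4.2) (by decide)
  have h4 := measureReal_union (μ := iid unif ℕ) h3 (measurableSet_setOfPred.2 mE0')
  have h5 : (iid unif ℕ).real ({v : ℕ → ℝ | E0 v} ∪ {v | E0' v}) ≤
      (iid unif ℕ).real {v | am v 0 (2 * m + 1) 0} := by
    refine measureReal_mono ?_ (measure_ne_top _ _)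
    rintro v (h | h)
    · exact h.1
    · exact h.1
  rw [am_real unif (n := 2 * m) (s := 0) (by omega)] at h5
  rw [h4, ← h2] at h5
  push_cast at h5
  linarith

/-- Every rule of the family has at least the density `m / (2 m + 1)`. -/
theorem densh (c : ℝ) (m : ℕ) (hm : 0 < m) : (m : ℝ) / (2 * m + 1) ≤
    (iid unif ℕ).real {v | parh c v 0 (2 * m) 1 ∧ parh c v 1 (2 * m) 1} := by
  set P := iid unif ℕ with hP
  set p : ℕ → ℕ → ℝ := fun b b' => P.real {v | parh c v 0 (2 * m) b ∧ parh c v 1 (2 * m) b'} with hp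
  have mm : ∀ b b', MeasurableSet {v : ℕ → ℝ | parh c v 0 (2 * m) b ∧ parh c v 1 (2 * m) b'} :=
    fun b b' => measurableSet_setOfPred.2 ((meas_parh c _ _ _).and (meas_parh c _ _ _))
  -- marginals
  have hshift : P.real {v | parh c v 1 (2 * m) 1} = P.real {v | parh c v 0 (2 * m) 0} := by
    rw [hP, ← real_inv unif (g := fun t => t + 1) (add_left_injective 1) (meas_parh c 0 (2 * m) 0)]
    congr 1
    ext v
    simp only [Set.mem_ofPred_eq]
    symm
    apply parh_comp (add_left_injective 1)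
    · intro t h1 h2
      omega
    · intro t h1 h2
      exact ⟨t - 1, by omega, by omega, by omega⟩
    · intro t h1 h2 x
      omega
  have hm0 : P.real {v | parh c v 0 (2 * m) 0} ≤ p 0 0 + p 0 1 := by
    refine le_trans ?_ (measureReal_union_le _ _)
    have hle : {v : ℕ → ℝ | parh c v 0 (2 * m) 0} ≤ᵐ[P]
        ({v | parh c v 0 (2 * m) 0 ∧ parh c v 1 (2 * m) 0} ∪
          {v | parh c v 0 (2 * m) 0 ∧ parh c v 1 (2 * m) 1} : Set (ℕ → ℝ)) := by
      filter_upwards [ae_ne_all unif] with v hv h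
      rcases exists_parh c hv 1 (2 * m) (by omega) with h' | h'
      · exact Or.inl ⟨h, h'⟩
      · exact Or.inr ⟨h, h'⟩
    unfold Measure.real
    exact ENNReal.toReal_mono (measure_ne_top _ _) (measure_mono_ae hle)
  have hm0' : p 0 0 + p 0 1 ≤ P.real {v | parh c v 0 (2 * m) 0} := by
    have h3 : Disjoint {v : ℕ → ℝ | parh c v 0 (2 * m) 0 ∧ parh c v 1 (2 * m) 0}
        {v | parh c v 0 (2 * m) 0 ∧ parh c v 1 (2 * m) 1} := by
      rw [Set.disjoint_left]
      rintro v ⟨_, h3⟩ ⟨_, h4⟩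
      exact absurd (parh_unique h3 h4) (by decide)
    rw [hp]
    show P.real {v | parh c v 0 (2 * m) 0 ∧ parh c v 1 (2 * m) 0} +
      P.real {v | parh c v 0 (2 * m) 0 ∧ parh c v 1 (2 * m) 1} ≤ _
    rw [← measureReal_union h3 (mm 0 1)]
    refine measureReal_mono ?_ (measure_ne_top _ _)
    rintro v (h | h)
    · exact h.1
    · exact h.1
  have hm1 : P.real {v | parh c v 1 (2 * m) 1} ≤ p 0 1 + p 1 1 := by
    refine le_trans ?_ (measureReal_union_le _ _)
    have hle : {v : ℕ → ℝ | parh c v 1 (2 * m) 1} ≤ᵐ[P]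
        ({v | parh c v 0 (2 * m) 0 ∧ parh c v 1 (2 * m) 1} ∪
          {v | parh c v 0 (2 * m) 1 ∧ parh c v 1 (2 * m) 1} : Set (ℕ → ℝ)) := by
      filter_upwards [ae_ne_all unif] with v hv h
      rcases exists_parh c hv 0 (2 * m) (by omega) with h' | h'
      · exact Or.inl ⟨h', h⟩
      · exact Or.inr ⟨h', h⟩
    unfold Measure.real
    exact ENNReal.toReal_mono (measure_ne_top _ _) (measure_mono_ae hle)
  have htot : 1 ≤ P.real {v | (parh c v 0 (2 * m) 0 ∧ parh c v 1 (2 * m) 1) ∨
      (parh c v 0 (2 * m) 1 ∧ parh c v 1 (2 * m) 0)} + (p 0 0 + p 1 1) := by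
    refine le_trans ?_ (add_le_add le_rfl (measureReal_union_le _ _))
    refine le_trans ?_ (measureReal_union_le _ _)
    have hle : (Set.univ : Set (ℕ → ℝ)) ≤ᵐ[P]
        ({v | (parh c v 0 (2 * m) 0 ∧ parh c v 1 (2 * m) 1) ∨
      (parh c v 0 (2 * m) 1 ∧ parh c v 1 (2 * m) 0)} ∪
      ({v | parh c v 0 (2 * m) 0 ∧ parh c v 1 (2 * m) 0} ∪
          {v | parh c v 0 (2 * m) 1 ∧ parh c v 1 (2 * m) 1}) : Set (ℕ → ℝ)) := by
      filter_upwards [ae_ne_all unif] with v hv _
      rcases exists_parh c hv 0 (2 * m) (by omega) with h | h <;>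
        rcases exists_parh c hv 1 (2 * m) (by omega) with h' | h'
      · exact Or.inr (Or.inl ⟨h, h'⟩)
      · exact Or.inl (Or.inl ⟨h, h'⟩)
      · exact Or.inl (Or.inr ⟨h, h'⟩)
      · exact Or.inr (Or.inr ⟨h, h'⟩)
    have h1 : P.real Set.univ = 1 := probReal_univ
    rw [← h1]
    unfold Measure.real
    exact ENNReal.toReal_mono (measure_ne_top _ _) (measure_mono_ae hle)
  have hd := defect_le c m hm
  rw [← hP] at hd
  have e : (m : ℝ) / (2 * m + 1) = (1 - 1 / (2 * (m : ℝ) + 1)) / 2 := by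
    field_simp
    ring
  rw [e]
  show _ ≤ p 1 1
  linarith

/-- The rule of the family. -/
noncomputable def fh (c : ℝ) (k : ℕ) (w : Fin (k + 1) → ℝ) : Bool :=
  @decide (parh c (ext0 w) 0 k 1 ∧ parh c (ext0 w) 1 k 1) (Classical.propDecidable _)

theorem fh_true {c : ℝ} {k : ℕ} {w : Fin (k + 1) → ℝ} : fh c k w = true ↔
    parh c (ext0 w) 0 k 1 ∧ parh c (ext0 w) 1 k 1 := by
  unfold fh
  exact @decide_eq_true_iff _ (Classical.propDecidable _)

theorem measurable_fh (c : ℝ) (k : ℕ) : Measurable (fh c k) := by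
  apply measurable_to_bool
  have e : fh c k ⁻¹' {true} = {w | parh c (ext0 w) 0 k 1 ∧ parh c (ext0 w) 1 k 1} := by
    ext w
    simp only [Set.mem_preimage, Set.mem_singleton_iff, fh_true, Set.mem_ofPred_eq]
  rw [e]
  have hg : ∀ n, Measurable fun w : Fin (k + 1) → ℝ => ext0 w n := by
    intro n
    unfold ext0
    by_cases h : n < k + 1
    · simp only [dif_pos h]
      exact measurable_pi_apply _
    · simp only [dif_neg h]
      exact measurable_const
  exact measurableSet_setOfPred.2 ((measurable_parh c hg 0 k 1).and (measurable_parh c hg 1 k 1))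

theorem bf_fh {c : ℝ} {k : ℕ} (u : ℤ → ℝ) (i : ℤ) : bf (fh c k) u i = true ↔
    parh c (fun n : ℕ => u (i - n)) 0 k 1 ∧ parh c (fun n : ℕ => u (i - n)) 1 k 1 := by
  unfold bf
  rw [fh_true]
  have h : ∀ t : ℕ, t < k + 1 → ext0 (fun j : Fin (k + 1) => u (i - (j : ℕ))) t = u (i - t) := by
    intro t ht
    unfold ext0
    rw [dif_pos ht]
  rw [parh_congr (v' := fun n : ℕ => u (i - n)) (j := 0) (k := k) fun t _ h2 => h t (by omega),
    parh_congr (v' := fun n : ℕ => u (i - n)) (j := 1) (k := k) fun t _ h2 => h t (by omega)]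

theorem fh_hard {c : ℝ} {k : ℕ} (u : ℤ → ℝ) (i : ℤ) :
    ¬ (bf (fh c k) u i = true ∧ bf (fh c k) u (i + 1) = true) := by
  rw [bf_fh, bf_fh]
  rintro ⟨⟨⟨s, hs, h1⟩, _⟩, ⟨_, s', hs', h2⟩⟩
  have h3 : am (fun n : ℕ => u (i + 1 - n)) 1 k (s + 1) := by
    refine ⟨by omega, by have := h1.2.1; omega, fun t h4 h5 h6 => ?_⟩
    have h7 := h1.2.2 (t - 1) (by omega) (by omega) (by omega)
    have e1 : i - ((t - 1 : ℕ) : ℤ) = i + 1 - t := by
      rw [Nat.cast_sub h4]; push_cast; ring
    have e2 : i + 1 - ((s + 1 : ℕ) : ℤ) = i - s := by push_cast; ring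
    simp only at h7 ⊢
    rw [e1] at h7
    rw [e2]
    exact h7
  have h8 := am_unique h2 h3
  subst h8
  have e2 : i + 1 - ((s + 1 : ℕ) : ℤ) = i - s := by push_cast; ring
  simp only at hs hs'
  rw [e2] at hs'
  omega

theorem fh_density (c : ℝ) (k : ℕ) : ((iid unif ℤ).map (bf (fh c k))).real {x | x 0 = true} =
    (iid unif ℕ).real {v | parh c v 0 k 1 ∧ parh c v 1 k 1} := by
  have hs : MeasurableSet {x : ℤ → Bool | x 0 = true} :=
    measurableSet_eq_fun (measurable_pi_apply 0) measurable_const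
  rw [map_measureReal_apply (measurable_bf (measurable_fh c k)) hs,
    ← real_Z 0 ((meas_parh c 0 k 1).and (meas_parh c 1 k 1))]
  congr 1
  ext u
  simp only [Set.mem_preimage, Set.mem_ofPred_eq]
  exact bf_fh u 0

/-- all four blocks of the rule -/
def fourh (c : ℝ) (v : ℕ → ℝ) (k : ℕ) : Prop :=
  parh c v 0 k 1 ∧ parh c v 1 k 1 ∧ parh c v 2 k 1 ∧ parh c v 3 k 1

theorem meas_fourh (c : ℝ) (k : ℕ) : Measurable fun v : ℕ → ℝ => fourh c v k :=
  (meas_parh c 0 k 1).and ((meas_parh c 1 k 1).and ((meas_parh c 2 k 1).and (meas_parh c 3 k 1)))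

theorem fh_two (c : ℝ) (k : ℕ) :
    ((iid unif ℤ).map (bf (fh c k))).real {x | x 2 = true ∧ x 0 = true} =
    (iid unif ℕ).real {v | fourh c v k} := by
  have hs : MeasurableSet {x : ℤ → Bool | x 2 = true ∧ x 0 = true} := by
    have h1 : MeasurableSet {x : ℤ → Bool | x 0 = true} :=
      measurableSet_eq_fun (measurable_pi_apply 0) measurable_const
    have h2 : MeasurableSet {x : ℤ → Bool | x 2 = true} :=
      measurableSet_eq_fun (measurable_pi_apply 2) measurable_const
    exact h2.inter h1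
  rw [map_measureReal_apply (measurable_bf (measurable_fh c k)) hs, ← real_Z 2 (meas_fourh c k)]
  congr 1
  ext u
  simp only [Set.mem_preimage, Set.mem_ofPred_eq]
  rw [bf_fh, bf_fh]
  unfold fourh
  have key : ∀ j, parh c (fun n : ℕ => u (0 - n)) j k 1 ↔
      parh c (fun n : ℕ => u (2 - n)) (j + 2) k 1 := by
    intro j
    have e : (fun n : ℕ => u (0 - n)) = fun n : ℕ => (fun n : ℕ => u (2 - n)) (n + 2) := by
      funext n
      show u (0 - (n : ℤ)) = u (2 - ((n + 2 : ℕ) : ℤ))
      congr 1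
      push_cast
      ring
    rw [e]
    apply parh_comp (v := fun n : ℕ => u (2 - n)) (add_left_injective 2)
    · intro t h1 h2
      omega
    · intro t h1 h2
      exact ⟨t - 2, by omega, by omega, by omega⟩
    · intro t h1 h2 x
      omega
  rw [key 0, key 1]
  tauto

theorem unif_mem : ∀ᵐ x ∂unif, x ∈ Set.Icc (0 : ℝ) 1 := ae_restrict_mem measurableSet_Icc

theorem iid_mem : ∀ᵐ v ∂(iid unif ℕ), ∀ n, v n ∈ Set.Icc (0 : ℝ) 1 := by
  rw [ae_all_iff]
  exact fun n => ae_eval unif n unif_mem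

theorem real_congr {Q Q' : (ℕ → ℝ) → Prop} (h : ∀ᵐ v ∂(iid unif ℕ), (Q v ↔ Q' v)) :
    (iid unif ℕ).real {v | Q v} = (iid unif ℕ).real {v | Q' v} := by
  unfold Measure.real
  congr 1
  apply measure_congr
  filter_upwards [h] with v hv
  exact propext hv

theorem end_one (k : ℕ) :
    (iid unif ℕ).real {v | fourh 1 v k} = (iid unif ℕ).real {v | four v k 1} := by
  apply real_congr
  filter_upwards [iid_mem] with v hv
  have e : ∀ j, parh 1 v j k 1 ↔ par v j k 1 := by
    intro j
    unfold parh par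
    refine exists_congr fun s => ?_
    have : hh 1 (v s) = 0 := by
      unfold hh
      rw [if_neg (not_lt.2 (hv s).2)]
    rw [this, add_zero]
  unfold fourh four
  rw [e, e, e, e]

theorem end_zero (k : ℕ) :
    (iid unif ℕ).real {v | fourh (-1) v k} = (iid unif ℕ).real {v | four v k 0} := by
  apply real_congr
  filter_upwards [iid_mem] with v hv
  have e : ∀ j, parh (-1) v j k 1 ↔ par v j k 0 := by
    intro j
    unfold parh par
    refine exists_congr fun s => ?_
    have : hh (-1) (v s) = 1 := by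
      unfold hh
      rw [if_pos (by have := (hv s).1; linarith)]
    rw [this]
    have : (s + 1) % 2 = 1 ↔ s % 2 = 0 := by omega
    rw [this]
  unfold fourh four
  rw [e, e, e, e]

theorem unif_between (c c' : ℝ) : unif.real {x | ¬ (c < x ↔ c' < x)} ≤ dist c c' := by
  have h1 : {x : ℝ | ¬ (c < x ↔ c' < x)} ⊆ Set.Icc (min c c') (max c c') := by
    intro x hx
    have hx' : ¬ (c < x ↔ c' < x) := hx
    rw [Set.mem_Icc, min_le_iff, le_max_iff]
    by_cases a : c < x <;> by_cases b : c' < x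
    · exact absurd (iff_of_true a b) hx'
    · exact ⟨Or.inl a.le, Or.inr (not_lt.1 b)⟩
    · exact ⟨Or.inr b.le, Or.inl (not_lt.1 a)⟩
    · exact absurd (iff_of_false a b) hx'
  have h2 : unif.real {x | ¬ (c < x ↔ c' < x)} ≤ unif.real (Set.Icc (min c c') (max c c')) :=
    measureReal_mono h1 (measure_ne_top _ _)
  refine h2.trans ?_
  have h3 : unif (Set.Icc (min c c') (max c c')) ≤ volume (Set.Icc (min c c') (max c c')) := by
    unfold unif
    exact Measure.restrict_apply_le _ _
  have h4 : volume (Set.Icc (min c c') (max c c')) = ENNReal.ofReal (dist c c') := by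
    rw [Real.volume_Icc, max_sub_min_eq_abs, Real.dist_eq, abs_sub_comm]
  rw [h4] at h3
  unfold Measure.real
  exact ENNReal.toReal_le_of_le_ofReal dist_nonneg h3

/-- The probability of two ones at distance two is a Lipschitz function of the threshold. -/
theorem fourh_le (k : ℕ) (c c' : ℝ) : (iid unif ℕ).real {v | fourh c v k} ≤
    (iid unif ℕ).real {v | fourh c' v k} + ((k + 3 : ℕ) : NNReal) * dist c c' := by
  have h1 : (iid unif ℕ).real {v | fourh c v k} ≤ (iid unif ℕ).real ({v | fourh c' v k} ∪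
      ⋃ i ∈ Finset.range (k + 3), {v | ¬ (c < v i ↔ c' < v i)}) := by
    refine measureReal_mono ?_ (measure_ne_top _ _)
    intro v hv
    by_cases h : ∃ i ∈ Finset.range (k + 3), ¬ (c < v i ↔ c' < v i)
    · right
      obtain ⟨i, hi, h⟩ := h
      simp only [Set.mem_iUnion]
      exact ⟨i, hi, h⟩
    · left
      push Not at h
      have e : ∀ j ≤ 3, parh c v j k 1 → parh c' v j k 1 := by
        rintro j hj ⟨s, hs1, hs2⟩
        refine ⟨s, ?_, hs2⟩
        have := h s (Finset.mem_range.2 (by have := hs2.2.1; omega))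
        have e2 : hh c' (v s) = hh c (v s) := by
          unfold hh
          simp only [this]
        rw [e2]
        exact hs1
      have hv' : fourh c v k := hv
      exact ⟨e 0 (by omega) hv'.1, e 1 (by omega) hv'.2.1, e 2 (by omega) hv'.2.2.1,
        e 3 (by omega) hv'.2.2.2⟩
  refine h1.trans ((measureReal_union_le _ _).trans (add_le_add le_rfl ?_))
  refine (measureReal_biUnion_finset_le _ _).trans ?_
  have h2 : ∀ i ∈ Finset.range (k + 3), (iid unif ℕ).real {v | ¬ (c < v i ↔ c' < v i)} ≤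
      dist c c' := by
    intro i _
    refine le_trans (le_of_eq ?_) (unif_between c c')
    have mp := measurePreserving_eval_infinitePi (fun _ : ℕ => unif) i
    have hm : MeasurableSet {x : ℝ | ¬ (c < x ↔ c' < x)} := by
      have m1 : Measurable fun x : ℝ => c < x :=
        measurableSet_setOfPred.1 (measurableSet_lt measurable_const measurable_id)
      have m2 : Measurable fun x : ℝ => c' < x :=
        measurableSet_setOfPred.1 (measurableSet_lt measurable_const measurable_id)
      exact (measurableSet_setOfPred.2 (m1.iff m2)).compl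
    have h := mp.measure_preimage hm.nullMeasurableSet
    unfold Measure.real
    rw [← h]
    rfl
  refine (Finset.sum_le_sum h2).trans (le_of_eq ?_)
  rw [Finset.sum_const, Finset.card_range, nsmul_eq_mul]
  simp

theorem fourh_continuous (k : ℕ) : Continuous fun c => (iid unif ℕ).real {v | fourh c v k} :=
  (LipschitzWith.of_le_add_mul _ (fourh_le k)).continuous

end Pool.Agent.H31.HCB
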