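import Pool.Agent.H31.HCBlockTwo

/-!
# A hard-core `(k + 1)`-block factor with density at least `k / (2 (k + 1))` for every `k`
-/

set_option autoImplicit false

open MeasureTheory ProbabilityTheory

namespace Pool.Agent.H31.HCB

/-- The law of a fair coin. -/
noncomputable def fair : Measure Bool :=
  (1 / 2 : ENNReal) • Measure.dirac true + (1 / 2 : ENNReal) • Measure.dirac false

instance : IsProbabilityMeasure fair := ⟨by
  unfold fair
  simp [ENNReal.inv_two_add_inv_two]⟩

theorem fair_not : fair.map not = fair := by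
  have h : Measurable not := Measurable.of_discrete
  have h1 : (Measure.dirac true).map not = Measure.dirac false := by
    rw [Measure.map_dirac' h]
    rfl
  have h2 : (Measure.dirac false).map not = Measure.dirac true := by
    rw [Measure.map_dirac' h]
    rfl
  unfold fair
  rw [Measure.map_add _ _ h, Measure.map_smul, Measure.map_smul, h1, h2]
  exact add_comm _ _

/-- The law of the labels: a uniform variable and a fair coin. -/
noncomputable def lam : Measure (ℝ × Bool) := unif.prod fair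

instance : IsProbabilityMeasure lam := by unfold lam; infer_instance

theorem lam_fst : MeasurePreserving (Prod.fst : ℝ × Bool → ℝ) lam unif := by
  unfold lam
  exact measurePreserving_fst

theorem lam_flip : MeasurePreserving (Prod.map (id : ℝ → ℝ) not) lam lam := by
  unfold lam
  exact (MeasurePreserving.id unif).prod ⟨Measurable.of_discrete, fair_not⟩

theorem mp_fst : MeasurePreserving (fun (u : ℕ → ℝ × Bool) (n : ℕ) => (u n).1) (iid lam ℕ)
    (iid unif ℕ) := by
  refine ⟨by fun_prop, ?_⟩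
  unfold iid
  rw [Measure.infinitePi_map_pi (μ := fun _ : ℕ => lam) (f := fun _ => Prod.fst)
    (fun _ => measurable_fst)]
  congr 1
  funext _
  exact lam_fst.map_eq

/-- Flip the coin at `i`. -/
def flip (i : ℕ) (u : ℕ → ℝ × Bool) (n : ℕ) : ℝ × Bool :=
  if n = i then Prod.map id not (u n) else u n

theorem mp_flip (i : ℕ) : MeasurePreserving (flip i) (iid lam ℕ) (iid lam ℕ) := by
  have hm : ∀ n, Measurable fun x : ℝ × Bool => if n = i then Prod.map id not x else x := by
    intro n
    by_cases h : n = i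
    · simp only [if_pos h]
      exact lam_flip.measurable
    · simp only [if_neg h]
      exact measurable_id
  have h := Measure.infinitePi_map_pi (μ := fun _ : ℕ => lam)
    (f := fun n x => if n = i then Prod.map id not x else x) hm
  refine ⟨measurable_pi_iff.2 fun n => (hm n).comp (measurable_pi_apply n), ?_⟩
  refine Eq.trans h ?_
  unfold iid
  congr 1
  funext n
  by_cases h : n = i
  · simp only [if_pos h]
    exact lam_flip.map_eq
  · simp only [if_neg h]
    exact Measure.map_id

/-- The coin as a number. -/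
def ee (x : ℝ × Bool) : ℕ := if x.2 = true then 1 else 0

/-- The position `s` of the maximum of the first coordinates on `j, …, j + k - 1`, plus the coin at
`s`, has parity `b`. -/
def parc (u : ℕ → ℝ × Bool) (j k b : ℕ) : Prop :=
  ∃ s, (s + ee (u s)) % 2 = b ∧ am (fun n => (u n).1) j k s

theorem parc_of_am {u : ℕ → ℝ × Bool} {j k s b : ℕ} (h : am (fun n => (u n).1) j k s) :
    parc u j k b ↔ (s + ee (u s)) % 2 = b := by
  constructor
  · rintro ⟨s', h1, h2⟩
    rw [am_unique h h2]
    exact h1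
  · intro h1
    exact ⟨s, h1, h⟩

theorem parc_unique {u : ℕ → ℝ × Bool} {j k b b' : ℕ} (h : parc u j k b) (h' : parc u j k b') :
    b = b' := by
  obtain ⟨s, h1, h2⟩ := h
  obtain ⟨s', h1', h2'⟩ := h'
  rw [← h1, ← h1', am_unique h2 h2']

theorem exists_parc {u : ℕ → ℝ × Bool} (hv : ∀ i j, i ≠ j → (u i).1 ≠ (u j).1) (j k : ℕ)
    (hk : 0 < k) : parc u j k 0 ∨ parc u j k 1 := by
  obtain ⟨s, hs⟩ := exists_am (v := fun n => (u n).1) hv j k hk
  rcases Nat.mod_two_eq_zero_or_one (s + ee (u s)) with h | h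
  · exact Or.inl ⟨s, h, hs⟩
  · exact Or.inr ⟨s, h, hs⟩

theorem parc_congr {u u' : ℕ → ℝ × Bool} {j k b : ℕ} (h : ∀ t, j ≤ t → t < j + k → u t = u' t) :
    parc u j k b ↔ parc u' j k b := by
  unfold parc
  refine exists_congr fun s => ?_
  rw [am_congr (v := fun n => (u n).1) (v' := fun n => (u' n).1) fun t h1 h2 => by rw [h t h1 h2]]
  constructor
  · rintro ⟨h1, h2⟩
    exact ⟨by rw [← h s h2.1 h2.2.1]; exact h1, h2⟩
  · rintro ⟨h1, h2⟩
    exact ⟨by rw [h s h2.1 h2.2.1]; exact h1, h2⟩

theorem measurable_parc {β : Type*} [MeasurableSpace β] {g : β → ℕ → ℝ × Bool}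
    (hg : ∀ n, Measurable fun x => g x n) (j k b : ℕ) : Measurable fun x => parc (g x) j k b := by
  unfold parc
  refine Measurable.exists fun s => Measurable.and ?_
    (measurable_am (g := fun x n => (g x n).1) (fun n => measurable_fst.comp (hg n)) j k s)
  have h2 : Measurable fun x => (s + ee (g x s)) % 2 :=
    (Measurable.of_discrete (f := fun y : Bool => (s + if y = true then 1 else 0) % 2)).comp
      (measurable_snd.comp (hg s))
  exact measurableSet_setOfPred.1 (h2 (MeasurableSet.of_discrete (s := {b})))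

theorem meas_parc (j k b : ℕ) : Measurable fun u : ℕ → ℝ × Bool => parc u j k b :=
  measurable_parc (g := fun u : ℕ → ℝ × Bool => u) (fun n => measurable_pi_apply n) j k b

theorem meas_amc (j k s : ℕ) : Measurable fun u : ℕ → ℝ × Bool => am (fun n => (u n).1) j k s :=
  measurable_am (g := fun (u : ℕ → ℝ × Bool) n => (u n).1) (fun n => by fun_prop) j k s

theorem flip_fst (i : ℕ) (u : ℕ → ℝ × Bool) : (fun n => (flip i u n).1) = fun n => (u n).1 := by
  funext n
  unfold flip
  split_ifs <;> rfl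

theorem ee_flip (i : ℕ) (u : ℕ → ℝ × Bool) : ee (flip i u i) + ee (u i) = 1 := by
  unfold flip ee
  rw [if_pos rfl]
  rcases h : (u i).2 with _ | _ <;> simp [h]

/-- defect -/
def df (u : ℕ → ℝ × Bool) (k : ℕ) : Prop :=
  (parc u 0 k 0 ∧ parc u 1 k 1) ∨ (parc u 0 k 1 ∧ parc u 1 k 0)

/-- no defect -/
def nd (u : ℕ → ℝ × Bool) (k : ℕ) : Prop :=
  (parc u 0 k 0 ∧ parc u 1 k 0) ∨ (parc u 0 k 1 ∧ parc u 1 k 1)

theorem meas_df (k : ℕ) : Measurable fun u : ℕ → ℝ × Bool => df u k :=
  ((meas_parc _ _ _).and (meas_parc _ _ _)).or ((meas_parc _ _ _).and (meas_parc _ _ _))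

theorem meas_nd (k : ℕ) : Measurable fun u : ℕ → ℝ × Bool => nd u k :=
  ((meas_parc _ _ _).and (meas_parc _ _ _)).or ((meas_parc _ _ _).and (meas_parc _ _ _))

theorem df_nd {u : ℕ → ℝ × Bool} {k : ℕ} (h : df u k) (h' : nd u k) : False := by
  rcases h with h | h <;> rcases h' with h' | h'
  · exact absurd (parc_unique h.2 h'.2) (by decide)
  · exact absurd (parc_unique h.1 h'.1) (by decide)
  · exact absurd (parc_unique h.1 h'.1) (by decide)
  · exact absurd (parc_unique h.2 h'.2) (by decide)

theorem amc_real {n s : ℕ} (hs : s < n + 1) :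
    (iid lam ℕ).real {u | am (fun n => (u n).1) 0 (n + 1) s} = 1 / ((n : ℝ) + 1) := by
  rw [← am_real unif hs]
  have h := mp_fst.measure_preimage (measurableSet_setOfPred.2 (meas_am 0 (n + 1) s)).nullMeasurableSet
  unfold Measure.real
  rw [← h]
  rfl

/-- At the ends of the window a defect occurs with probability `1/2`. -/
theorem end_le {k i : ℕ} (hk : 0 < k) (hi : i = 0 ∨ i = k) :
    (iid lam ℕ).real {u | am (fun n => (u n).1) 0 (k + 1) i ∧ df u k} ≤ 1 / (2 * ((k : ℝ) + 1)) := by
  have hflip : ∀ u : ℕ → ℝ × Bool, am (fun n => (u n).1) 0 (k + 1) i →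
      (df (flip i u) k ↔ nd u k) := by
    intro u hu
    have he := ee_flip i u
    rcases hi with rfl | rfl
    · have a0 : am (fun n => (u n).1) 0 k 0 := am_restrict hu (by omega) (by omega) (by omega)
      have a0' : am (fun n => (flip 0 u n).1) 0 k 0 := by rw [flip_fst]; exact a0
      have h1 : ∀ b, parc (flip 0 u) 1 k b ↔ parc u 1 k b := fun b => parc_congr fun t h2 _ => by
        unfold flip
        rw [if_neg (by omega)]
      unfold df nd
      rw [h1, h1, parc_of_am a0', parc_of_am a0', parc_of_am a0, parc_of_am a0]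
      have e1 : (0 + ee (flip 0 u 0)) % 2 = 0 ↔ (0 + ee (u 0)) % 2 = 1 := by omega
      have e2 : (0 + ee (flip 0 u 0)) % 2 = 1 ↔ (0 + ee (u 0)) % 2 = 0 := by omega
      rw [e1, e2]
      tauto
    · have a0 : am (fun n => (u n).1) 1 i i := am_restrict hu (by omega) (by omega) (by omega)
      have a0' : am (fun n => (flip i u n).1) 1 i i := by rw [flip_fst]; exact a0
      have h1 : ∀ b, parc (flip i u) 0 i b ↔ parc u 0 i b := fun b => parc_congr fun t _ h2 => by
        unfold flip
        rw [if_neg (by omega)]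
      unfold df nd
      rw [h1, h1, parc_of_am a0', parc_of_am a0', parc_of_am a0, parc_of_am a0]
      have e1 : (i + ee (flip i u i)) % 2 = 0 ↔ (i + ee (u i)) % 2 = 1 := by omega
      have e2 : (i + ee (flip i u i)) % 2 = 1 ↔ (i + ee (u i)) % 2 = 0 := by omega
      rw [e1, e2]
  have mQ : Measurable fun u : ℕ → ℝ × Bool => am (fun n => (u n).1) 0 (k + 1) i ∧ df u k :=
    (meas_amc _ _ _).and (meas_df k)
  have mR : Measurable fun u : ℕ → ℝ × Bool => am (fun n => (u n).1) 0 (k + 1) i ∧ nd u k :=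
    (meas_amc _ _ _).and (meas_nd k)
  have h1 : (iid lam ℕ).real {u | am (fun n => (u n).1) 0 (k + 1) i ∧ nd u k} =
      (iid lam ℕ).real {u | am (fun n => (u n).1) 0 (k + 1) i ∧ df u k} := by
    have h := (mp_flip i).measure_preimage (measurableSet_setOfPred.2 mQ).nullMeasurableSet
    unfold Measure.real
    rw [← h]
    congr 2
    ext u
    simp only [Set.mem_ofPred_eq, Set.mem_preimage, flip_fst]
    exact and_congr_right fun hu => (hflip u hu).symm
  have h2 : Disjoint {u : ℕ → ℝ × Bool | am (fun n => (u n).1) 0 (k + 1) i ∧ df u k}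
      {u | am (fun n => (u n).1) 0 (k + 1) i ∧ nd u k} := by
    rw [Set.disjoint_left]
    rintro u ⟨_, h3⟩ ⟨_, h4⟩
    exact df_nd h3 h4
  have h3 := measureReal_union (μ := iid lam ℕ) h2 (measurableSet_setOfPred.2 mR)
  have h4 : (iid lam ℕ).real ({u : ℕ → ℝ × Bool | am (fun n => (u n).1) 0 (k + 1) i ∧ df u k} ∪
      {u | am (fun n => (u n).1) 0 (k + 1) i ∧ nd u k}) ≤
      (iid lam ℕ).real {u | am (fun n => (u n).1) 0 (k + 1) i} := by
    refine measureReal_mono ?_ (measure_ne_top _ _)
    rintro u (h | h)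
    · exact h.1
    · exact h.1
  rw [amc_real (n := k) (s := i) (by rcases hi with rfl | rfl <;> omega)] at h4
  rw [h3, h1] at h4
  have : 1 / (2 * ((k : ℝ) + 1)) = (1 / ((k : ℝ) + 1)) / 2 := by
    rw [div_div, mul_comm]
  rw [this]
  linarith

/-- Defects have probability at most `1 / (k + 1)`. -/
theorem df_le {k : ℕ} (hk : 0 < k) : (iid lam ℕ).real {u | df u k} ≤ 1 / ((k : ℝ) + 1) := by
  have hne : ∀ᵐ u ∂(iid lam ℕ), ∀ i j, i ≠ j → (u i).1 ≠ (u j).1 :=
    mp_fst.quasiMeasurePreserving.ae (ae_ne_all unif)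
  have h1 : (iid lam ℕ).real {u | df u k} ≤
      (iid lam ℕ).real {u | am (fun n => (u n).1) 0 (k + 1) 0 ∧ df u k} +
      (iid lam ℕ).real {u | am (fun n => (u n).1) 0 (k + 1) k ∧ df u k} := by
    refine le_trans ?_ (measureReal_union_le _ _)
    have hle : {u | df u k} ≤ᵐ[iid lam ℕ]
        ({u | am (fun n => (u n).1) 0 (k + 1) 0 ∧ df u k} ∪
        {u | am (fun n => (u n).1) 0 (k + 1) k ∧ df u k} : Set (ℕ → ℝ × Bool)) := by
      filter_upwards [hne] with u hu h
      obtain ⟨s, hs⟩ := exists_am (v := fun n => (u n).1) hu 0 (k + 1) (by omega)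
      have hsN := hs.2.1
      by_cases c0 : s = 0
      · subst c0
        exact Or.inl ⟨hs, h⟩
      · by_cases ck : s = k
        · subst ck
          exact Or.inr ⟨hs, h⟩
        · exfalso
          have h' : df u k := h
          have a0 : am (fun n => (u n).1) 0 k s := am_restrict hs (by omega) (by omega) (by omega)
          have a1 : am (fun n => (u n).1) 1 k s := am_restrict hs (by omega) (by omega) (by omega)
          unfold df at h'
          rw [parc_of_am a0, parc_of_am a0, parc_of_am a1, parc_of_am a1] at h'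
          omega
    unfold Measure.real
    exact ENNReal.toReal_mono (measure_ne_top _ _) (measure_mono_ae hle)
  have h2 := end_le (k := k) (i := 0) hk (Or.inl rfl)
  have h3 := end_le (k := k) (i := k) hk (Or.inr rfl)
  have : 1 / (2 * ((k : ℝ) + 1)) = (1 / ((k : ℝ) + 1)) / 2 := by
    rw [div_div, mul_comm]
  rw [this] at h2 h3
  linarith

theorem densc {k : ℕ} (hk : 0 < k) : (k : ℝ) / (2 * (k + 1)) ≤
    (iid lam ℕ).real {u | parc u 0 k 1 ∧ parc u 1 k 1} := by
  set P := iid lam ℕ with hP
  have hne : ∀ᵐ u ∂P, ∀ i j, i ≠ j → (u i).1 ≠ (u j).1 :=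
    mp_fst.quasiMeasurePreserving.ae (ae_ne_all unif)
  set p : ℕ → ℕ → ℝ := fun b b' => P.real {u | parc u 0 k b ∧ parc u 1 k b'} with hp
  have mm : ∀ b b', MeasurableSet {u : ℕ → ℝ × Bool | parc u 0 k b ∧ parc u 1 k b'} :=
    fun b b' => measurableSet_setOfPred.2 ((meas_parc _ _ _).and (meas_parc _ _ _))
  have hshift : P.real {u | parc u 1 k 1} = P.real {u | parc u 0 k 0} := by
    have h := (mp_inj lam (g := fun t : ℕ => t + 1) (add_left_injective 1)).measure_preimage
      (measurableSet_setOfPred.2 (meas_parc 0 k 0)).nullMeasurableSet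
    rw [hP]
    unfold Measure.real
    rw [← h]
    congr 2
    ext u
    simp only [Set.mem_ofPred_eq, Set.mem_preimage]
    constructor
    · rintro ⟨s, h1, h2⟩
      have h3 := h2.1
      refine ⟨s - 1, ?_, ?_⟩
      · have e : s - 1 + 1 = s := by omega
        show (s - 1 + ee (u (s - 1 + 1))) % 2 = 0
        rw [e]
        omega
      · have h4 := (am_comp (v := fun n => (u n).1) (g := fun t : ℕ => t + 1) (j := 0) (k := k)
          (j' := 1) (s := s - 1) (add_left_injective 1) (fun t _ h6 => by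
            show 1 ≤ t + 1 ∧ t + 1 < 1 + k
            omega)
          (fun t h5 h6 => ⟨t - 1, by omega, by omega, by show t - 1 + 1 = t; omega⟩)
          ⟨by omega, by have := h2.2.1; omega⟩)
        refine h4.2 ?_
        have e : s - 1 + 1 = s := by omega
        show am (fun n => (u n).1) 1 k (s - 1 + 1)
        rw [e]
        exact h2
    · rintro ⟨s, h1, h2⟩
      have h4 := (am_comp (v := fun n => (u n).1) (g := fun t : ℕ => t + 1) (j := 0) (k := k)
          (j' := 1) (s := s) (add_left_injective 1) (fun t _ h6 => by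
            show 1 ≤ t + 1 ∧ t + 1 < 1 + k
            omega)
          (fun t h5 h6 => ⟨t - 1, by omega, by omega, by show t - 1 + 1 = t; omega⟩)
          ⟨h2.1, h2.2.1⟩)
      have h1' : (s + ee (u (s + 1))) % 2 = 0 := h1
      exact ⟨s + 1, by omega, h4.1 h2⟩
  have hm0' : p 0 0 + p 0 1 ≤ P.real {u | parc u 0 k 0} := by
    have h3 : Disjoint {u : ℕ → ℝ × Bool | parc u 0 k 0 ∧ parc u 1 k 0}
        {u | parc u 0 k 0 ∧ parc u 1 k 1} := by
      rw [Set.disjoint_left]
      rintro v ⟨_, h3⟩ ⟨_, h4⟩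
      exact absurd (parc_unique h3 h4) (by decide)
    show P.real {u | parc u 0 k 0 ∧ parc u 1 k 0} + P.real {u | parc u 0 k 0 ∧ parc u 1 k 1} ≤ _
    rw [← measureReal_union h3 (mm 0 1)]
    refine measureReal_mono ?_ (measure_ne_top _ _)
    rintro v (h | h)
    · exact h.1
    · exact h.1
  have hm1 : P.real {u | parc u 1 k 1} ≤ p 0 1 + p 1 1 := by
    refine le_trans ?_ (measureReal_union_le _ _)
    have hle : {u : ℕ → ℝ × Bool | parc u 1 k 1} ≤ᵐ[P]
        ({u | parc u 0 k 0 ∧ parc u 1 k 1} ∪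
          {u | parc u 0 k 1 ∧ parc u 1 k 1} : Set (ℕ → ℝ × Bool)) := by
      filter_upwards [hne] with v hv h
      rcases exists_parc hv 0 k hk with h' | h'
      · exact Or.inl ⟨h', h⟩
      · exact Or.inr ⟨h', h⟩
    unfold Measure.real
    exact ENNReal.toReal_mono (measure_ne_top _ _) (measure_mono_ae hle)
  have htot : 1 ≤ P.real {u | df u k} + (p 0 0 + p 1 1) := by
    refine le_trans ?_ (add_le_add le_rfl (measureReal_union_le _ _))
    refine le_trans ?_ (measureReal_union_le _ _)
    have hle : (Set.univ : Set (ℕ → ℝ × Bool)) ≤ᵐ[P]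
        ({u | df u k} ∪ ({u | parc u 0 k 0 ∧ parc u 1 k 0} ∪
          {u | parc u 0 k 1 ∧ parc u 1 k 1}) : Set (ℕ → ℝ × Bool)) := by
      filter_upwards [hne] with v hv _
      rcases exists_parc hv 0 k hk with h | h <;>
        rcases exists_parc hv 1 k hk with h' | h'
      · exact Or.inr (Or.inl ⟨h, h'⟩)
      · exact Or.inl (Or.inl ⟨h, h'⟩)
      · exact Or.inl (Or.inr ⟨h, h'⟩)
      · exact Or.inr (Or.inr ⟨h, h'⟩)
    have h1 : P.real Set.univ = 1 := probReal_univ
    rw [← h1]
    unfold Measure.real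
    exact ENNReal.toReal_mono (measure_ne_top _ _) (measure_mono_ae hle)
  have hd := df_le hk
  rw [← hP] at hd
  have e : (k : ℝ) / (2 * (k + 1)) = (1 - 1 / ((k : ℝ) + 1)) / 2 := by
    field_simp
    ring
  rw [e]
  show _ ≤ p 1 1
  linarith

/-- Extension of a window by zeros. -/
def extc {k : ℕ} (w : Fin (k + 1) → ℝ × Bool) (n : ℕ) : ℝ × Bool :=
  if h : n < k + 1 then w ⟨n, h⟩ else (0, true)

/-- The rule. -/
noncomputable def fc (k : ℕ) (w : Fin (k + 1) → ℝ × Bool) : Bool :=
  @decide (parc (extc w) 0 k 1 ∧ parc (extc w) 1 k 1) (Classical.propDecidable _)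

theorem fc_true {k : ℕ} {w : Fin (k + 1) → ℝ × Bool} : fc k w = true ↔
    parc (extc w) 0 k 1 ∧ parc (extc w) 1 k 1 := by
  unfold fc
  exact @decide_eq_true_iff _ (Classical.propDecidable _)

theorem measurable_fc (k : ℕ) : Measurable (fc k) := by
  apply measurable_to_bool
  have e : fc k ⁻¹' {true} = {w | parc (extc w) 0 k 1 ∧ parc (extc w) 1 k 1} := by
    ext w
    simp only [Set.mem_preimage, Set.mem_singleton_iff, fc_true, Set.mem_ofPred_eq]
  rw [e]
  have hg : ∀ n, Measurable fun w : Fin (k + 1) → ℝ × Bool => extc w n := by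
    intro n
    unfold extc
    by_cases h : n < k + 1
    · simp only [dif_pos h]
      exact measurable_pi_apply _
    · simp only [dif_neg h]
      exact measurable_const
  exact measurableSet_setOfPred.2 ((measurable_parc hg 0 k 1).and (measurable_parc hg 1 k 1))

theorem bf_fc {k : ℕ} (u : ℤ → ℝ × Bool) (i : ℤ) : bf (fc k) u i = true ↔
    parc (fun n : ℕ => u (i - n)) 0 k 1 ∧ parc (fun n : ℕ => u (i - n)) 1 k 1 := by
  unfold bf
  rw [fc_true]
  have h : ∀ t : ℕ, t < k + 1 → extc (fun j : Fin (k + 1) => u (i - (j : ℕ))) t = u (i - t) := by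
    intro t ht
    unfold extc
    rw [dif_pos ht]
  rw [parc_congr (u' := fun n : ℕ => u (i - n)) (j := 0) (k := k) fun t _ h2 => h t (by omega),
    parc_congr (u' := fun n : ℕ => u (i - n)) (j := 1) (k := k) fun t _ h2 => h t (by omega)]

theorem fc_hard {k : ℕ} (u : ℤ → ℝ × Bool) (i : ℤ) :
    ¬ (bf (fc k) u i = true ∧ bf (fc k) u (i + 1) = true) := by
  rw [bf_fc, bf_fc]
  rintro ⟨⟨⟨s, hs, h1⟩, _⟩, ⟨_, s', hs', h2⟩⟩
  have h3 : am (fun n : ℕ => (u (i + 1 - n)).1) 1 k (s + 1) := by
    refine ⟨by omega, by have := h1.2.1; omega, fun t h4 h5 h6 => ?_⟩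
    have h7 := h1.2.2 (t - 1) (by omega) (by omega) (by omega)
    have e1 : i - ((t - 1 : ℕ) : ℤ) = i + 1 - t := by
      rw [Nat.cast_sub h4]; push_cast; ring
    have e2 : i + 1 - ((s + 1 : ℕ) : ℤ) = i - s := by push_cast; ring
    simp only at h7 ⊢
    rw [e1] at h7
    rw [e2]
    exact h7
  have h8 := am_unique h2 h3
  subst h8
  have e2 : i + 1 - ((s + 1 : ℕ) : ℤ) = i - s := by push_cast; ring
  simp only at hs hs'
  rw [e2] at hs'
  omega

theorem fc_density (k : ℕ) : ((iid lam ℤ).map (bf (fc k))).real {x | x 0 = true} =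
    (iid lam ℕ).real {u | parc u 0 k 1 ∧ parc u 1 k 1} := by
  have hs : MeasurableSet {x : ℤ → Bool | x 0 = true} :=
    measurableSet_eq_fun (measurable_pi_apply 0) measurable_const
  rw [map_measureReal_apply (measurable_bf (measurable_fc k)) hs]
  have hg : Function.Injective fun n : ℕ => (0 : ℤ) - (n : ℤ) := by
    intro a b h
    have h' : (0 : ℤ) - (a : ℤ) = 0 - (b : ℤ) := h
    omega
  have h := (mp_inj lam hg).measure_preimage
    (measurableSet_setOfPred.2 ((meas_parc 0 k 1).and (meas_parc 1 k 1))).nullMeasurableSet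
  unfold Measure.real
  rw [← h]
  congr 2
  ext u
  simp only [Set.mem_preimage, Set.mem_ofPred_eq]
  exact bf_fc u 0

end Pool.Agent.H31.HCB
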