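import Pool.Agent.H31.HCBlockFactor

/-!
# A hard-core 4-block factor with density `97 / 256`
-/

set_option autoImplicit false

open MeasureTheory ProbabilityTheory

namespace Pool.Agent.H31.HCB

/-- The table of the rule. -/
def tab (a b c : ℕ) : Bool := Nat.testBit 12659348682826516622 (16 * a + 4 * b + c)

/-- The rule. -/
def f4 (w : Fin (3 + 1) → Fin 4) : Bool :=
  tab (w 0) (w 1) (w 2) && !tab (w 1) (w 2) (w 3)

theorem count4 : (Finset.univ.filter fun w : Fin (3 + 1) → Fin 4 => f4 w = true).card = 97 := by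
  decide +kernel

/-- The uniform law on four letters. -/
noncomputable def uni4 : Measure (Fin 4) := (PMF.uniformOfFintype (Fin 4)).toMeasure

instance : IsProbabilityMeasure uni4 := by unfold uni4; infer_instance

theorem uni4_singleton (a : Fin 4) : uni4 {a} = 1 / 4 := by
  unfold uni4
  rw [PMF.toMeasure_apply_singleton _ _ (MeasurableSet.of_discrete), PMF.uniformOfFintype_apply]
  simp

theorem f4_real : (iid uni4 (Fin (3 + 1))).real {w | f4 w = true} = 97 / 256 := by
  classical
  have e : {w : Fin (3 + 1) → Fin 4 | f4 w = true} =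
      ((Finset.univ.filter fun w : Fin (3 + 1) → Fin 4 => f4 w = true : Finset _) : Set _) := by
    ext w
    simp
  have h1 : ∀ w : Fin (3 + 1) → Fin 4, (iid uni4 (Fin (3 + 1))).real {w} = 1 / 256 := by
    intro w
    unfold iid Measure.real
    rw [Measure.infinitePi_eq_pi, Measure.pi_singleton]
    simp only [uni4_singleton]
    rw [Finset.prod_const, Finset.card_univ, Fintype.card_fin, ENNReal.toReal_pow,
      ENNReal.toReal_div]
    norm_num
  rw [e, ← sum_measureReal_singleton, Finset.sum_congr rfl fun w _ => h1 w, Finset.sum_const,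
    count4, nsmul_eq_mul]
  norm_num

theorem measurable_f4 : Measurable f4 := Measurable.of_discrete

theorem f4_hard (u : ℤ → Fin 4) (i : ℤ) : ¬ (bf f4 u i = true ∧ bf f4 u (i + 1) = true) := by
  rintro ⟨h1, h2⟩
  unfold bf f4 at h1 h2
  rw [Bool.and_eq_true] at h1 h2
  have h3 := h1.1
  have h4 := h2.2
  beta_reduce at h3 h4
  have e1 : i + 1 - (((1 : Fin (3 + 1)) : ℕ) : ℤ) = i - (((0 : Fin (3 + 1)) : ℕ) : ℤ) := by
    show i + 1 - ((1 : ℕ) : ℤ) = i - ((0 : ℕ) : ℤ)
    push_cast; ring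
  have e2 : i + 1 - (((2 : Fin (3 + 1)) : ℕ) : ℤ) = i - (((1 : Fin (3 + 1)) : ℕ) : ℤ) := by
    show i + 1 - ((2 : ℕ) : ℤ) = i - ((1 : ℕ) : ℤ)
    push_cast; ring
  have e3 : i + 1 - (((3 : Fin (3 + 1)) : ℕ) : ℤ) = i - (((2 : Fin (3 + 1)) : ℕ) : ℤ) := by
    show i + 1 - ((3 : ℕ) : ℤ) = i - ((2 : ℕ) : ℤ)
    push_cast; ring
  rw [e1, e2, e3, h3] at h4
  exact absurd h4 (by decide)

theorem f4_density : ((iid uni4 ℤ).map (bf f4)).real {x | x 0 = true} = 97 / 256 := by
  rw [density_bf uni4 measurable_f4]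
  exact f4_real

end Pool.Agent.H31.HCB
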