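import Pool.Agent.H31.HCBlockUnique

/-!
# Two critical hard-core block factors

The parity of the position of the maximum of `k` consecutive labels gives two hard-core
`(k + 1)`-block factors with the maximal density.
-/

set_option autoImplicit false

open MeasureTheory ProbabilityTheory

namespace Pool.Agent.H31.HCB

/-- The strict maximum of `v` on `j, …, j + k - 1` is at `s`. -/
def am (v : ℕ → ℝ) (j k s : ℕ) : Prop :=
  j ≤ s ∧ s < j + k ∧ ∀ t, j ≤ t → t < j + k → t ≠ s → v t < v s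

/-- The position of the strict maximum of `v` on `j, …, j + k - 1` has parity `b`. -/
def par (v : ℕ → ℝ) (j k b : ℕ) : Prop := ∃ s, s % 2 = b ∧ am v j k s

theorem am_unique {v : ℕ → ℝ} {j k s s' : ℕ} (h : am v j k s) (h' : am v j k s') : s = s' := by
  by_contra hne
  exact lt_asymm (h.2.2 s' h'.1 h'.2.1 (Ne.symm hne)) (h'.2.2 s h.1 h.2.1 hne)

theorem par_unique {v : ℕ → ℝ} {j k b b' : ℕ} (h : par v j k b) (h' : par v j k b') : b = b' := by
  obtain ⟨s, h1, h2⟩ := h
  obtain ⟨s', h1', h2'⟩ := h'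
  rw [← h1, ← h1', am_unique h2 h2']

theorem am_restrict {v : ℕ → ℝ} {N s j k : ℕ} (h : am v 0 N s) (h1 : j ≤ s) (h2 : s < j + k)
    (h3 : j + k ≤ N) : am v j k s :=
  ⟨h1, h2, fun t _ h5 h6 => h.2.2 t (Nat.zero_le _) (by omega) h6⟩

theorem am_congr {v v' : ℕ → ℝ} {j k s : ℕ} (h : ∀ t, j ≤ t → t < j + k → v t = v' t) :
    am v j k s ↔ am v' j k s := by
  constructor
  · rintro ⟨h1, h2, h3⟩
    refine ⟨h1, h2, fun t h4 h5 h6 => ?_⟩
    rw [← h t h4 h5, ← h s h1 h2]
    exact h3 t h4 h5 h6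
  · rintro ⟨h1, h2, h3⟩
    refine ⟨h1, h2, fun t h4 h5 h6 => ?_⟩
    rw [h t h4 h5, h s h1 h2]
    exact h3 t h4 h5 h6

theorem par_congr {v v' : ℕ → ℝ} {j k b : ℕ} (h : ∀ t, j ≤ t → t < j + k → v t = v' t) :
    par v j k b ↔ par v' j k b := by
  unfold par
  simp only [am_congr h]

theorem exists_am {v : ℕ → ℝ} (hv : ∀ i j, i ≠ j → v i ≠ v j) (j k : ℕ) (hk : 0 < k) :
    ∃ s, am v j k s := by
  obtain ⟨s, hs, hmax⟩ := Finset.exists_max_image (Finset.Ico j (j + k)) v ⟨j, by simp [hk]⟩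
  rw [Finset.mem_Ico] at hs
  refine ⟨s, hs.1, hs.2, fun t h1 h2 h3 => ?_⟩
  exact lt_of_le_of_ne (hmax t (Finset.mem_Ico.2 ⟨h1, h2⟩)) (hv t s h3)

theorem exists_par {v : ℕ → ℝ} (hv : ∀ i j, i ≠ j → v i ≠ v j) (j k : ℕ) (hk : 0 < k) :
    par v j k 0 ∨ par v j k 1 := by
  obtain ⟨s, hs⟩ := exists_am hv j k hk
  rcases Nat.mod_two_eq_zero_or_one s with h | h
  · exact Or.inl ⟨s, h, hs⟩
  · exact Or.inr ⟨s, h, hs⟩

/-- Transport of a block by a map which is onto the new block. -/
theorem am_comp {v : ℕ → ℝ} {g : ℕ → ℕ} {j k j' s : ℕ} (hinj : Function.Injective g)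
    (h1 : ∀ t, j ≤ t → t < j + k → j' ≤ g t ∧ g t < j' + k)
    (h2 : ∀ t, j' ≤ t → t < j' + k → ∃ t', j ≤ t' ∧ t' < j + k ∧ g t' = t)
    (hs : j ≤ s ∧ s < j + k) :
    am (fun n => v (g n)) j k s ↔ am v j' k (g s) := by
  constructor
  · rintro ⟨_, _, h⟩
    refine ⟨(h1 s hs.1 hs.2).1, (h1 s hs.1 hs.2).2, fun t h4 h5 h6 => ?_⟩
    obtain ⟨t', h7, h8, rfl⟩ := h2 t h4 h5
    exact h t' h7 h8 fun e => h6 (by rw [e])
  · rintro ⟨_, _, h⟩
    refine ⟨hs.1, hs.2, fun t h4 h5 h6 => ?_⟩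
    exact h (g t) (h1 t h4 h5).1 (h1 t h4 h5).2 fun e => h6 (hinj e)

theorem par_comp {v : ℕ → ℝ} {g : ℕ → ℕ} {j k j' b b' : ℕ} (hinj : Function.Injective g)
    (h1 : ∀ t, j ≤ t → t < j + k → j' ≤ g t ∧ g t < j' + k)
    (h2 : ∀ t, j' ≤ t → t < j' + k → ∃ t', j ≤ t' ∧ t' < j + k ∧ g t' = t)
    (hb : ∀ t, j ≤ t → t < j + k → (t % 2 = b ↔ g t % 2 = b')) :
    par (fun n => v (g n)) j k b ↔ par v j' k b' := by
  constructor
  · rintro ⟨s, hs1, hs2⟩
    exact ⟨g s, (hb s hs2.1 hs2.2.1).1 hs1, (am_comp hinj h1 h2 ⟨hs2.1, hs2.2.1⟩).1 hs2⟩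
  · rintro ⟨s, hs1, hs2⟩
    obtain ⟨s', h3, h4, rfl⟩ := h2 s hs2.1 hs2.2.1
    exact ⟨s', (hb s' h3 h4).2 hs1, (am_comp hinj h1 h2 ⟨h3, h4⟩).2 hs2⟩

/-- The cyclic shift of `0, …, n`. -/
def cyc (n : ℕ) (s : ℕ) : ℕ := if s < n then s + 1 else if s = n then 0 else s

theorem cyc_inj (n : ℕ) : Function.Injective (cyc n) := by
  intro a b h
  unfold cyc at h
  split_ifs at h <;> omega

theorem cyc_par {v : ℕ → ℝ} {n j k b b' : ℕ} (hn : j + k ≤ n) (hb : b + b' = 1) :
    par (fun t => v (cyc n t)) j k b ↔ par v (j + 1) k b' := by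
  apply par_comp (cyc_inj n)
  · intro t h1 h2
    unfold cyc
    rw [if_pos (by omega)]
    omega
  · intro t h1 h2
    refine ⟨t - 1, by omega, by omega, ?_⟩
    unfold cyc
    rw [if_pos (by omega)]
    omega
  · intro t h1 h2
    unfold cyc
    rw [if_pos (by omega)]
    omega

theorem cyc_am {v : ℕ → ℝ} {n s : ℕ} (hs : s < n) :
    am (fun t => v (cyc n t)) 0 (n + 1) s ↔ am v 0 (n + 1) (s + 1) := by
  have e : cyc n s = s + 1 := by
    unfold cyc
    rw [if_pos hs]
  rw [← e]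
  apply am_comp (cyc_inj n)
  · intro t h1 h2
    unfold cyc
    split_ifs <;> omega
  · intro t h1 h2
    by_cases ht : t = 0
    · refine ⟨n, by omega, by omega, ?_⟩
      unfold cyc
      rw [if_neg (by omega), if_pos rfl, ht]
    · refine ⟨t - 1, by omega, by omega, ?_⟩
      unfold cyc
      rw [if_pos (by omega)]
      omega
  · omega

/-- The reversal of the block `j, …, j + k - 1`. -/
def rev (j k : ℕ) (s : ℕ) : ℕ := if j ≤ s ∧ s < j + k then 2 * j + k - 1 - s else s

theorem rev_inj (j k : ℕ) : Function.Injective (rev j k) := by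
  intro a b h
  unfold rev at h
  split_ifs at h <;> omega

theorem rev_par {v : ℕ → ℝ} {j k b b' : ℕ} (hk : k % 2 = 0) (hb : b + b' = 1) :
    par (fun t => v (rev j k t)) j k b ↔ par v j k b' := by
  apply par_comp (rev_inj j k)
  · intro t h1 h2
    unfold rev
    rw [if_pos (by omega)]
    omega
  · intro t h1 h2
    refine ⟨2 * j + k - 1 - t, by omega, by omega, ?_⟩
    unfold rev
    rw [if_pos (by omega)]
    omega
  · intro t h1 h2
    unfold rev
    rw [if_pos (by omega)]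
    omega

theorem rev_am {v : ℕ → ℝ} {j k N s : ℕ} (hN : j + k ≤ N) (hs : s < N) (hs' : ¬ (j ≤ s ∧ s < j + k)) :
    am (fun t => v (rev j k t)) 0 N s ↔ am v 0 N s := by
  have e : rev j k s = s := by
    unfold rev
    rw [if_neg hs']
  conv_rhs => rw [← e]
  apply am_comp (rev_inj j k)
  · intro t h1 h2
    unfold rev
    split_ifs <;> omega
  · intro t h1 h2
    by_cases ht : j ≤ t ∧ t < j + k
    · refine ⟨2 * j + k - 1 - t, by omega, by omega, ?_⟩
      unfold rev
      rw [if_pos (by omega)]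
      omega
    · refine ⟨t, by omega, by omega, ?_⟩
      unfold rev
      rw [if_neg ht]
  · omega

theorem measurable_am {β : Type*} [MeasurableSpace β] {g : β → ℕ → ℝ}
    (hg : ∀ n, Measurable fun x => g x n) (j k s : ℕ) : Measurable fun x => am (g x) j k s := by
  unfold am
  refine measurable_const.and (measurable_const.and (Measurable.forall fun t => ?_))
  refine measurable_const.imp (measurable_const.imp (measurable_const.imp ?_))
  exact measurableSet_setOfPred.1 (measurableSet_lt (hg t) (hg s))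

theorem measurable_par {β : Type*} [MeasurableSpace β] {g : β → ℕ → ℝ}
    (hg : ∀ n, Measurable fun x => g x n) (j k b : ℕ) : Measurable fun x => par (g x) j k b := by
  unfold par
  exact Measurable.exists fun s => measurable_const.and (measurable_am hg j k s)

section prob

variable (ν : Measure ℝ) [IsProbabilityMeasure ν]

theorem real_inv {g : ℕ → ℕ} (hg : Function.Injective g) {Q : (ℕ → ℝ) → Prop} (hQ : Measurable Q) :
    (iid ν ℕ).real {v | Q (fun t => v (g t))} = (iid ν ℕ).real {v | Q v} := by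
  have h := (mp_inj ν hg).measure_preimage (measurableSet_setOfPred.2 hQ).nullMeasurableSet
  unfold Measure.real
  rw [← h]
  rfl

variable [NullSingletonClass ν]

theorem ae_ne_all : ∀ᵐ v ∂(iid ν ℕ), ∀ i j, i ≠ j → v i ≠ v j :=
  ae_pairs ν (ι := ℕ) (P := fun x y => x ≠ y) (ae_ne ν 1 0 0)

theorem am_real {n s : ℕ} (hs : s < n + 1) :
    (iid ν ℕ).real {v | am v 0 (n + 1) s} = 1 / ((n : ℝ) + 1) := by
  have h := (mp_inj ν (g := fun i : Fin (n + 1) => (i : ℕ)) Fin.val_injective).measure_preimage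
    (measurableSet_at n ⟨s, hs⟩).nullMeasurableSet
  have h2 : (iid ν ℕ).real {v | am v 0 (n + 1) s} =
      (iid ν (Fin (n + 1))).real (topAt n ⟨s, hs⟩) := by
    unfold Measure.real
    rw [← h]
    congr 2
    ext v
    simp only [Set.mem_ofPred_eq, Set.mem_preimage, topAt]
    constructor
    · intro h3 l hl
      exact h3.2.2 l (Nat.zero_le _) (by have := l.2; omega) fun e => hl (Fin.ext e)
    · intro h3
      refine ⟨Nat.zero_le _, by omega, fun t _ h4 h5 => ?_⟩
      exact h3 ⟨t, by omega⟩ fun e => h5 (congrArg (fun z : Fin (n + 1) => (z : ℕ)) e)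
  rw [h2, top_real, eq_div_iff (by positivity), mul_comm]
  exact top_zero_real ν n

theorem meas_am (j k s : ℕ) : Measurable fun v : ℕ → ℝ => am v j k s :=
  measurable_am (g := fun v : ℕ → ℝ => v) (fun n => measurable_pi_apply n) j k s

theorem meas_par (j k b : ℕ) : Measurable fun v : ℕ → ℝ => par v j k b :=
  measurable_par (g := fun v : ℕ → ℝ => v) (fun n => measurable_pi_apply n) j k b

/-- Half of the mass. -/
theorem half_real {n j k s : ℕ} (hk : k % 2 = 0) (hn : j + k ≤ n + 1) (hs : s < n + 1)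
    (hs' : ¬ (j ≤ s ∧ s < j + k)) :
    (iid ν ℕ).real {v | am v 0 (n + 1) s ∧ par v j k 0} ≤ 1 / (2 * ((n : ℝ) + 1)) := by
  have m0 : Measurable fun v : ℕ → ℝ => am v 0 (n + 1) s ∧ par v j k 0 :=
    (meas_am 0 (n + 1) s).and (meas_par j k 0)
  have m1 : Measurable fun v : ℕ → ℝ => am v 0 (n + 1) s ∧ par v j k 1 :=
    (meas_am 0 (n + 1) s).and (meas_par j k 1)
  have h1 : (iid ν ℕ).real {v | am v 0 (n + 1) s ∧ par v j k 1} =
      (iid ν ℕ).real {v | am v 0 (n + 1) s ∧ par v j k 0} := by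
    rw [← real_inv ν (rev_inj j k) m0]
    congr 1
    ext v
    simp only [Set.mem_ofPred_eq]
    rw [rev_am hn hs hs', rev_par (b := 0) (b' := 1) hk rfl]
  have h2 : Disjoint {v : ℕ → ℝ | am v 0 (n + 1) s ∧ par v j k 0}
      {v | am v 0 (n + 1) s ∧ par v j k 1} := by
    rw [Set.disjoint_left]
    rintro v ⟨_, h3⟩ ⟨_, h4⟩
    exact absurd (par_unique h3 h4) (by decide)
  have h3 := measureReal_union (μ := iid ν ℕ) h2 (measurableSet_setOfPred.2 m1)
  have h4 : (iid ν ℕ).real ({v | am v 0 (n + 1) s ∧ par v j k 0} ∪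
      {v | am v 0 (n + 1) s ∧ par v j k 1}) ≤ (iid ν ℕ).real {v | am v 0 (n + 1) s} := by
    refine measureReal_mono ?_ (measure_ne_top _ _)
    rintro v (h | h)
    · exact h.1
    · exact h.1
  rw [am_real ν hs] at h4
  rw [h3, h1] at h4
  have : 1 / (2 * ((n : ℝ) + 1)) = (1 / ((n : ℝ) + 1)) / 2 := by
    rw [div_div, mul_comm]
  rw [this]
  linarith

/-- all four blocks have their maximum at a position of parity `b` -/
def four (v : ℕ → ℝ) (k b : ℕ) : Prop := par v 0 k b ∧ par v 1 k b ∧ par v 2 k b ∧ par v 3 k b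

theorem meas_four (k b : ℕ) : Measurable fun v : ℕ → ℝ => four v k b :=
  (meas_par 0 k b).and ((meas_par 1 k b).and ((meas_par 2 k b).and (meas_par 3 k b)))

omit [NullSingletonClass ν] in
theorem odd_ge (k n c : ℕ) :
    ∑ i ∈ Finset.range c, (iid ν ℕ).real {v | am v 0 (n + 1) (2 * i + 1) ∧ four v k 1} ≤
      (iid ν ℕ).real {v | four v k 1} := by
  have hd : ((Finset.range c : Finset ℕ) : Set ℕ).PairwiseDisjoint
      (fun i => {v : ℕ → ℝ | am v 0 (n + 1) (2 * i + 1) ∧ four v k 1}) := by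
    intro a _ b _ hab
    rw [Function.onFun, Set.disjoint_left]
    rintro v ⟨h1, _⟩ ⟨h2, _⟩
    exact hab (by have := am_unique h1 h2; omega)
  rw [← measureReal_biUnion_finset hd fun i _ =>
    measurableSet_setOfPred.2 ((meas_am 0 (n + 1) _).and (meas_four k 1))]
  refine measureReal_mono ?_ (measure_ne_top _ _)
  intro v hv
  simp only [Set.mem_iUnion] at hv
  obtain ⟨i, _, hv⟩ := hv
  exact hv.2

theorem even_le (k n c : ℕ) (hk : 3 ≤ k) (hn : n + 1 = k + 3) (hc : n + 1 ≤ 2 * c) :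
    (iid ν ℕ).real {v | four v k 0} ≤
      ∑ i ∈ Finset.range c, (iid ν ℕ).real {v | am v 0 (n + 1) (2 * i) ∧ four v k 0} := by
  have h1 : (iid ν ℕ).real {v | four v k 0} ≤ (iid ν ℕ).real
      (⋃ i ∈ Finset.range c, {v | am v 0 (n + 1) (2 * i) ∧ four v k 0}) := by
    have hle : {v : ℕ → ℝ | four v k 0} ≤ᵐ[iid ν ℕ]
        (⋃ i ∈ Finset.range c, {v | am v 0 (n + 1) (2 * i) ∧ four v k 0} : Set (ℕ → ℝ)) := by
      filter_upwards [ae_ne_all ν] with v hv h
      have h' : four v k 0 := h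
      obtain ⟨s, hs⟩ := exists_am hv 0 (n + 1) (by omega)
      have hsN := hs.2.1
      have hpar : s % 2 = 0 := by
        -- `s` lies in one of the blocks
        by_cases c0 : s < k
        · obtain ⟨t, ht1, ht2⟩ := h'.1
          rw [am_unique (am_restrict hs (j := 0) (k := k) (by omega) (by omega) (by omega)) ht2]
          exact ht1
        · obtain ⟨t, ht1, ht2⟩ := h'.2.2.2
          rw [am_unique (am_restrict hs (j := 3) (k := k) (by omega) (by omega) (by omega)) ht2]
          exact ht1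
      show v ∈ (⋃ i ∈ Finset.range c, {v | am v 0 (n + 1) (2 * i) ∧ four v k 0} : Set (ℕ → ℝ))
      simp only [Set.mem_iUnion]
      refine ⟨s / 2, Finset.mem_range.2 (by omega), ?_, h'⟩
      have : 2 * (s / 2) = s := by omega
      rw [this]
      exact hs
    unfold Measure.real
    exact ENNReal.toReal_mono (measure_ne_top _ _) (measure_mono_ae hle)
  exact h1.trans (measureReal_biUnion_finset_le _ _)

/-- The configurations which make the difference. -/
def extra (v : ℕ → ℝ) (k n : ℕ) : Prop :=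
  am v 0 (n + 1) 0 ∧ par v 1 k 0 ∧ par v 2 k 0 ∧ par v 3 k 1

omit [NullSingletonClass ν] in
theorem compare_left (k n : ℕ) (hk : 2 ≤ k) (hn : n + 1 = k + 3) :
    (iid ν ℕ).real {v | am v 0 (n + 1) 0 ∧ four v k 0} + (iid ν ℕ).real {v | extra v k n} ≤
      (iid ν ℕ).real {v | am v 0 (n + 1) 1 ∧ four v k 1} := by
  have mQ : Measurable fun v : ℕ → ℝ => am v 0 (n + 1) 1 ∧ par v 2 k 1 ∧ par v 3 k 1 :=
    (meas_am _ _ _).and ((meas_par _ _ _).and (meas_par _ _ _))
  have mR : Measurable fun v : ℕ → ℝ => am v 0 (n + 1) 0 ∧ par v 1 k 0 ∧ par v 2 k 0 :=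
    (meas_am _ _ _).and ((meas_par _ _ _).and (meas_par _ _ _))
  have h1 : (iid ν ℕ).real {v | am v 0 (n + 1) 1 ∧ par v 2 k 1 ∧ par v 3 k 1} =
      (iid ν ℕ).real {v | am v 0 (n + 1) 0 ∧ par v 1 k 0 ∧ par v 2 k 0} := by
    rw [← real_inv ν (cyc_inj n) mR]
    congr 1
    ext v
    simp only [Set.mem_ofPred_eq]
    rw [cyc_am (n := n) (s := 0) (by omega), cyc_par (n := n) (j := 1) (b := 0) (b' := 1) (by omega) rfl,
      cyc_par (n := n) (j := 2) (b := 0) (b' := 1) (by omega) rfl]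
  have h2 : (iid ν ℕ).real {v | am v 0 (n + 1) 1 ∧ par v 2 k 1 ∧ par v 3 k 1} ≤
      (iid ν ℕ).real {v | am v 0 (n + 1) 1 ∧ four v k 1} := by
    refine measureReal_mono ?_ (measure_ne_top _ _)
    rintro v ⟨a, b, c⟩
    exact ⟨a, ⟨1, rfl, am_restrict a (by omega) (by omega) (by omega)⟩,
      ⟨1, rfl, am_restrict a (by omega) (by omega) (by omega)⟩, b, c⟩
  have h3 : Disjoint {v : ℕ → ℝ | am v 0 (n + 1) 0 ∧ four v k 0} {v | extra v k n} := by
    rw [Set.disjoint_left]
    rintro v ⟨_, h3⟩ h4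
    exact absurd (par_unique h3.2.2.2 h4.2.2.2) (by decide)
  have mE : Measurable fun v : ℕ → ℝ => extra v k n :=
    (meas_am _ _ _).and ((meas_par _ _ _).and ((meas_par _ _ _).and (meas_par _ _ _)))
  have h4 := measureReal_union (μ := iid ν ℕ) h3 (measurableSet_setOfPred.2 mE)
  have h5 : (iid ν ℕ).real ({v | am v 0 (n + 1) 0 ∧ four v k 0} ∪ {v | extra v k n}) ≤
      (iid ν ℕ).real {v | am v 0 (n + 1) 0 ∧ par v 1 k 0 ∧ par v 2 k 0} := by
    refine measureReal_mono ?_ (measure_ne_top _ _)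
    rintro v (h | h)
    · exact ⟨h.1, h.2.2.1, h.2.2.2.1⟩
    · exact ⟨h.1, h.2.1, h.2.2.1⟩
  rw [← h4]
  exact h5.trans (h1 ▸ h2)

omit [NullSingletonClass ν] in
theorem compare_right (k n : ℕ) (hk : 2 ≤ k) (hk2 : k % 2 = 0) (hn : n + 1 = k + 3) :
    (iid ν ℕ).real {v | am v 0 (n + 1) (k + 2) ∧ four v k 0} ≤
      (iid ν ℕ).real {v | am v 0 (n + 1) (k + 1) ∧ four v k 1} := by
  have mQ : Measurable fun v : ℕ → ℝ => am v 0 (n + 1) (k + 1) ∧ par v 0 k 1 ∧ par v 1 k 1 :=
    (meas_am _ _ _).and ((meas_par _ _ _).and (meas_par _ _ _))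
  have h1 : (iid ν ℕ).real {v | am v 0 (n + 1) (k + 1) ∧ par v 0 k 1 ∧ par v 1 k 1} =
      (iid ν ℕ).real {v | am v 0 (n + 1) (k + 2) ∧ par v 1 k 0 ∧ par v 2 k 0} := by
    rw [← real_inv ν (cyc_inj n) mQ]
    congr 1
    ext v
    simp only [Set.mem_ofPred_eq]
    rw [cyc_am (n := n) (s := k + 1) (by omega),
      cyc_par (n := n) (j := 0) (b := 1) (b' := 0) (by omega) rfl,
      cyc_par (n := n) (j := 1) (b := 1) (b' := 0) (by omega) rfl]
  have h2 : (iid ν ℕ).real {v | am v 0 (n + 1) (k + 1) ∧ par v 0 k 1 ∧ par v 1 k 1} ≤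
      (iid ν ℕ).real {v | am v 0 (n + 1) (k + 1) ∧ four v k 1} := by
    refine measureReal_mono ?_ (measure_ne_top _ _)
    rintro v ⟨a, b, c⟩
    exact ⟨a, b, c, ⟨k + 1, by omega, am_restrict a (by omega) (by omega) (by omega)⟩,
      ⟨k + 1, by omega, am_restrict a (by omega) (by omega) (by omega)⟩⟩
  have h3 : (iid ν ℕ).real {v | am v 0 (n + 1) (k + 2) ∧ four v k 0} ≤
      (iid ν ℕ).real {v | am v 0 (n + 1) (k + 2) ∧ par v 1 k 0 ∧ par v 2 k 0} := by
    refine measureReal_mono ?_ (measure_ne_top _ _)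
    rintro v h
    exact ⟨h.1, h.2.2.1, h.2.2.2.1⟩
  exact h3.trans (h1 ▸ h2)

/-- The two laws give different probabilities to two ones at distance two. -/
theorem four_gap (q : ℕ) : (iid ν ℕ).real {v | four v (2 * q + 4) 0} +
    (iid ν ℕ).real {v | extra v (2 * q + 4) (2 * q + 6)} ≤
      (iid ν ℕ).real {v | four v (2 * q + 4) 1} := by
  have hodd := odd_ge ν (2 * q + 4) (2 * q + 6) (q + 3)
  have heven := even_le ν (2 * q + 4) (2 * q + 6) (q + 4) (by omega) (by omega) (by omega)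
  have hl := compare_left ν (2 * q + 4) (2 * q + 6) (by omega) (by omega)
  have hr := compare_right ν (2 * q + 4) (2 * q + 6) (by omega) (by omega) (by omega)
  set N : ℝ := ((2 * q + 6 : ℕ) : ℝ) + 1 with hN
  have hN0 : 0 < N := by positivity
  let o : ℕ → ℝ := fun i => (iid ν ℕ).real
    {v | am v 0 (2 * q + 6 + 1) (2 * i + 1) ∧ four v (2 * q + 4) 1}
  let e : ℕ → ℝ := fun i => (iid ν ℕ).real
    {v | am v 0 (2 * q + 6 + 1) (2 * i) ∧ four v (2 * q + 4) 0}
  have so : ∑ i ∈ Finset.range (q + 3), o i =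
      o 0 + ∑ i ∈ Finset.range (q + 1), o (i + 1) + o (q + 2) := by
    rw [Finset.sum_range_succ, Finset.sum_range_succ']
    ring
  have se : ∑ i ∈ Finset.range (q + 4), e i =
      e 0 + e 1 + ∑ i ∈ Finset.range q, e (i + 2) + e (q + 2) + e (q + 3) := by
    rw [Finset.sum_range_succ, Finset.sum_range_succ, Finset.sum_range_succ',
      Finset.sum_range_succ']
    ring
  have b1 : ∑ i ∈ Finset.range (q + 1), o (i + 1) = ((q : ℝ) + 1) * (1 / N) := by
    rw [Finset.sum_congr rfl (g := fun _ => 1 / N)]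
    · rw [Finset.sum_const, Finset.card_range, nsmul_eq_mul]
      push_cast
      ring
    · intro i hi
      have hi' := Finset.mem_range.1 hi
      show (iid ν ℕ).real
        {v | am v 0 (2 * q + 6 + 1) (2 * (i + 1) + 1) ∧ four v (2 * q + 4) 1} = 1 / N
      rw [hN, ← am_real ν (n := 2 * q + 6) (s := 2 * (i + 1) + 1) (by omega)]
      congr 1
      ext v
      simp only [Set.mem_ofPred_eq]
      constructor
      · exact fun h => h.1
      · intro h
        exact ⟨h, ⟨_, by omega, am_restrict h (by omega) (by omega) (by omega)⟩,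
          ⟨_, by omega, am_restrict h (by omega) (by omega) (by omega)⟩,
          ⟨_, by omega, am_restrict h (by omega) (by omega) (by omega)⟩,
          ⟨_, by omega, am_restrict h (by omega) (by omega) (by omega)⟩⟩
  have b2 : ∑ i ∈ Finset.range q, e (i + 2) ≤ (q : ℝ) * (1 / N) := by
    calc ∑ i ∈ Finset.range q, e (i + 2) ≤ ∑ i ∈ Finset.range q, 1 / N := by
          apply Finset.sum_le_sum
          intro i hi
          have hi' := Finset.mem_range.1 hi
          rw [hN, ← am_real ν (n := 2 * q + 6) (s := 2 * (i + 2)) (by omega)]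
          refine measureReal_mono ?_ (measure_ne_top _ _)
          intro v h
          exact h.1
      _ = (q : ℝ) * (1 / N) := by
          rw [Finset.sum_const, Finset.card_range, nsmul_eq_mul]
  have b3 : e 1 ≤ 1 / (2 * N) := by
    refine le_trans ?_ (half_real ν (n := 2 * q + 6) (j := 3) (k := 2 * q + 4) (s := 2)
      (by omega) (by omega) (by omega) (by omega))
    refine measureReal_mono ?_ (measure_ne_top _ _)
    intro v h
    exact ⟨h.1, h.2.2.2.2⟩
  have b4 : e (q + 2) ≤ 1 / (2 * N) := by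
    refine le_trans ?_ (half_real ν (n := 2 * q + 6) (j := 0) (k := 2 * q + 4) (s := 2 * (q + 2))
      (by omega) (by omega) (by omega) (by omega))
    refine measureReal_mono ?_ (measure_ne_top _ _)
    intro v h
    exact ⟨h.1, h.2.1⟩
  have b5 : e 0 + (iid ν ℕ).real {v | extra v (2 * q + 4) (2 * q + 6)} ≤ o 0 := hl
  have b6 : e (q + 3) ≤ o (q + 2) := hr
  have b7 : 1 / (2 * N) = (1 / N) / 2 := by
    rw [div_div, mul_comm]
  change ∑ i ∈ Finset.range (q + 3), o i ≤ _ at hodd
  change _ ≤ ∑ i ∈ Finset.range (q + 4), e i at heven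
  rw [so, b1] at hodd
  rw [se] at heven
  rw [b7] at b3 b4
  linarith

/-- Both rules have at least the density `m / (2 m + 1)`. -/
theorem dens_one (m : ℕ) : (m : ℝ) / (2 * m + 1) ≤
    (iid ν ℕ).real {v | par v 0 (2 * m) 1 ∧ par v 1 (2 * m) 1} := by
  have hd : ((Finset.range m : Finset ℕ) : Set ℕ).PairwiseDisjoint
      (fun i => {v : ℕ → ℝ | am v 0 (2 * m + 1) (2 * i + 1)}) := by
    intro a _ b _ hab
    rw [Function.onFun, Set.disjoint_left]
    intro v h1 h2
    have h1' : am v 0 (2 * m + 1) (2 * a + 1) := h1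
    have h2' : am v 0 (2 * m + 1) (2 * b + 1) := h2
    exact hab (by have := am_unique h1' h2'; omega)
  have h1 := measureReal_biUnion_finset (μ := iid ν ℕ) hd fun i _ =>
    measurableSet_setOfPred.2 (meas_am 0 (2 * m + 1) (2 * i + 1))
  have h2 : (iid ν ℕ).real (⋃ i ∈ Finset.range m, {v : ℕ → ℝ | am v 0 (2 * m + 1) (2 * i + 1)}) ≤
      (iid ν ℕ).real {v | par v 0 (2 * m) 1 ∧ par v 1 (2 * m) 1} := by
    refine measureReal_mono ?_ (measure_ne_top _ _)
    intro v hv
    simp only [Set.mem_iUnion] at hv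
    obtain ⟨i, hi, hv⟩ := hv
    have hi' := Finset.mem_range.1 hi
    have hv' : am v 0 (2 * m + 1) (2 * i + 1) := hv
    exact ⟨⟨_, by omega, am_restrict hv' (by omega) (by omega) (by omega)⟩,
      ⟨_, by omega, am_restrict hv' (by omega) (by omega) (by omega)⟩⟩
  rw [h1] at h2
  refine le_trans (le_of_eq ?_) h2
  rw [Finset.sum_congr rfl (g := fun _ => 1 / (((2 * m : ℕ) : ℝ) + 1))]
  · rw [Finset.sum_const, Finset.card_range, nsmul_eq_mul]
    push_cast
    ring
  · intro i hi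
    have hi' := Finset.mem_range.1 hi
    exact am_real ν (by omega)

theorem dens_zero (m : ℕ) (hm : 0 < m) : (m : ℝ) / (2 * m + 1) ≤
    (iid ν ℕ).real {v | par v 0 (2 * m) 0 ∧ par v 1 (2 * m) 0} := by
  refine (dens_one ν m).trans ?_
  have m01 : Measurable fun v : ℕ → ℝ => par v 0 (2 * m) 0 ∧ par v 1 (2 * m) 1 :=
    (meas_par _ _ _).and (meas_par _ _ _)
  have m11 : Measurable fun v : ℕ → ℝ => par v 0 (2 * m) 1 ∧ par v 1 (2 * m) 1 :=
    (meas_par _ _ _).and (meas_par _ _ _)
  have h1 : (iid ν ℕ).real {v | par v 1 (2 * m) 1} = (iid ν ℕ).real {v | par v 0 (2 * m) 0} := by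
    rw [← real_inv ν (g := fun t => t + 1) (add_left_injective 1) (meas_par 0 (2 * m) 0)]
    congr 1
    ext v
    simp only [Set.mem_ofPred_eq]
    symm
    apply par_comp (add_left_injective 1)
    · intro t h1 h2
      omega
    · intro t h1 h2
      exact ⟨t - 1, by omega, by omega, by omega⟩
    · intro t h1 h2
      omega
  have h2 : (iid ν ℕ).real {v | par v 0 (2 * m) 0} ≤
      (iid ν ℕ).real {v | par v 0 (2 * m) 0 ∧ par v 1 (2 * m) 0} +
        (iid ν ℕ).real {v | par v 0 (2 * m) 0 ∧ par v 1 (2 * m) 1} := by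
    refine le_trans ?_ (measureReal_union_le _ _)
    have hle : {v : ℕ → ℝ | par v 0 (2 * m) 0} ≤ᵐ[iid ν ℕ]
        ({v | par v 0 (2 * m) 0 ∧ par v 1 (2 * m) 0} ∪
          {v | par v 0 (2 * m) 0 ∧ par v 1 (2 * m) 1} : Set (ℕ → ℝ)) := by
      filter_upwards [ae_ne_all ν] with v hv h
      rcases exists_par hv 1 (2 * m) (by omega) with h' | h'
      · exact Or.inl ⟨h, h'⟩
      · exact Or.inr ⟨h, h'⟩
    unfold Measure.real
    exact ENNReal.toReal_mono (measure_ne_top _ _) (measure_mono_ae hle)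
  have h3 : Disjoint {v : ℕ → ℝ | par v 0 (2 * m) 0 ∧ par v 1 (2 * m) 1}
      {v | par v 0 (2 * m) 1 ∧ par v 1 (2 * m) 1} := by
    rw [Set.disjoint_left]
    rintro v ⟨h3, _⟩ ⟨h4, _⟩
    exact absurd (par_unique h3 h4) (by decide)
  have h4 := measureReal_union (μ := iid ν ℕ) h3 (measurableSet_setOfPred.2 m11)
  have h5 : (iid ν ℕ).real ({v : ℕ → ℝ | par v 0 (2 * m) 0 ∧ par v 1 (2 * m) 1} ∪
      {v | par v 0 (2 * m) 1 ∧ par v 1 (2 * m) 1}) ≤ (iid ν ℕ).real {v | par v 1 (2 * m) 1} := by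
    refine measureReal_mono ?_ (measure_ne_top _ _)
    rintro v (h | h)
    · exact h.2
    · exact h.2
  rw [h4] at h5
  linarith

end prob

/-- The uniform law on `[0, 1]`. -/
noncomputable def unif : Measure ℝ := volume.restrict (Set.Icc (0 : ℝ) 1)

instance : IsProbabilityMeasure unif := ⟨by unfold unif; simp⟩

instance : NullSingletonClass unif := by unfold unif; infer_instance

theorem unif_Icc {a b : ℝ} (h0 : 0 ≤ a) (h1 : b ≤ 1) (hab : a < b) : unif (Set.Icc a b) ≠ 0 := by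
  unfold unif
  rw [Measure.restrict_apply measurableSet_Icc,
    Set.inter_eq_self_of_subset_left (Set.Icc_subset_Icc h0 h1), Real.volume_Icc]
  simpa using hab

theorem extra_pos (k n : ℕ) (hk : 4 ≤ k) (hn : n + 1 = k + 3) :
    0 < (iid unif ℕ).real {v | extra v k n} := by
  let t : ℕ → Set ℝ := fun i => if i = 0 then Set.Icc 0.9 1 else if i = 2 then Set.Icc 0.7 0.8 else
    if i = 3 then Set.Icc 0.5 0.6 else Set.Icc 0 0.4
  have ht : ∀ i, unif (t i) ≠ 0 := by
    intro i
    show unif (if i = 0 then Set.Icc 0.9 1 else if i = 2 then Set.Icc 0.7 0.8 else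
      if i = 3 then Set.Icc 0.5 0.6 else Set.Icc 0 0.4) ≠ 0
    split_ifs
    · exact unif_Icc (by norm_num) (by norm_num) (by norm_num)
    · exact unif_Icc (by norm_num) (by norm_num) (by norm_num)
    · exact unif_Icc (by norm_num) (by norm_num) (by norm_num)
    · exact unif_Icc (by norm_num) (by norm_num) (by norm_num)
  have hm : ∀ i, MeasurableSet (t i) := by
    intro i
    show MeasurableSet (if i = 0 then Set.Icc (0.9 : ℝ) 1 else if i = 2 then Set.Icc 0.7 0.8 else
      if i = 3 then Set.Icc 0.5 0.6 else Set.Icc 0 0.4)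
    split_ifs <;> exact measurableSet_Icc
  have h1 : iid unif ℕ (Set.pi (Finset.range (k + 3) : Finset ℕ) t) ≠ 0 := by
    unfold iid
    rw [Measure.infinitePi_pi _ fun i _ => hm i]
    exact Finset.prod_ne_zero_iff.2 fun i _ => ht i
  have h2 : Set.pi (Finset.range (k + 3) : Finset ℕ) t ⊆ {v | extra v k n} := by
    intro v hv
    have g0 : 0.9 ≤ v 0 := by
      have := hv 0 (by simp)
      simp only [t, if_true] at this
      exact this.1
    have g2 : 0.7 ≤ v 2 ∧ v 2 ≤ 0.8 := by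
      have := hv 2 (by simp)
      simpa [t] using this
    have g3 : 0.5 ≤ v 3 ∧ v 3 ≤ 0.6 := by
      have := hv 3 (Finset.mem_coe.2 (Finset.mem_range.2 (by omega)))
      simpa [t] using this
    have g : ∀ i < k + 3, i ≠ 0 → i ≠ 2 → i ≠ 3 → v i ≤ 0.4 := by
      intro i hi h3 h4 h5
      have := hv i (by simpa using hi)
      simp only [t, if_neg h3, if_neg h4, if_neg h5] at this
      exact this.2
    refine ⟨⟨le_rfl, by omega, fun i _ h4 h5 => ?_⟩, ⟨2, rfl, by omega, by omega, fun i h3 h4 h5 => ?_⟩,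
      ⟨2, rfl, by omega, by omega, fun i h3 h4 h5 => ?_⟩, ⟨3, rfl, by omega, by omega, fun i h3 h4 h5 => ?_⟩⟩
    · by_cases c2 : i = 2
      · subst c2; linarith
      · by_cases c3 : i = 3
        · subst c3; linarith
        · linarith [g i (by omega) h5 c2 c3]
    · by_cases c3 : i = 3
      · subst c3; linarith
      · linarith [g i (by omega) (by omega) h5 c3]
    · by_cases c3 : i = 3
      · subst c3; linarith
      · linarith [g i (by omega) (by omega) h5 c3]
    · linarith [g i (by omega) (by omega) (by omega) h5]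
  have h3 : (iid unif ℕ) {v | extra v k n} ≠ 0 := fun h => h1 (measure_mono_null h2 h)
  exact ENNReal.toReal_pos h3 (measure_ne_top _ _)

/-- Extension of a window by zeros. -/
def ext0 {k : ℕ} (w : Fin (k + 1) → ℝ) (n : ℕ) : ℝ := if h : n < k + 1 then w ⟨n, h⟩ else 0

/-- The rule: the maxima of the first and of the last `k` labels of the window both sit at
positions of parity `b`. -/
noncomputable def fb (k b : ℕ) (w : Fin (k + 1) → ℝ) : Bool :=
  @decide (par (ext0 w) 0 k b ∧ par (ext0 w) 1 k b) (Classical.propDecidable _)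

theorem fb_true {k b : ℕ} {w : Fin (k + 1) → ℝ} : fb k b w = true ↔
    par (ext0 w) 0 k b ∧ par (ext0 w) 1 k b := by
  unfold fb
  exact @decide_eq_true_iff _ (Classical.propDecidable _)

theorem measurable_fb (k b : ℕ) : Measurable (fb k b) := by
  apply measurable_to_bool
  have e : fb k b ⁻¹' {true} = {w | par (ext0 w) 0 k b ∧ par (ext0 w) 1 k b} := by
    ext w
    simp only [Set.mem_preimage, Set.mem_singleton_iff, fb_true, Set.mem_ofPred_eq]
  rw [e]
  have hg : ∀ n, Measurable fun w : Fin (k + 1) → ℝ => ext0 w n := by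
    intro n
    unfold ext0
    by_cases h : n < k + 1
    · simp only [dif_pos h]
      exact measurable_pi_apply _
    · simp only [dif_neg h]
      exact measurable_const
  exact measurableSet_setOfPred.2 ((measurable_par hg 0 k b).and (measurable_par hg 1 k b))

theorem bf_fb {k b : ℕ} (u : ℤ → ℝ) (i : ℤ) : bf (fb k b) u i = true ↔
    par (fun n : ℕ => u (i - n)) 0 k b ∧ par (fun n : ℕ => u (i - n)) 1 k b := by
  unfold bf
  rw [fb_true]
  have h : ∀ t : ℕ, t < k + 1 → ext0 (fun j : Fin (k + 1) => u (i - (j : ℕ))) t = u (i - t) := by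
    intro t ht
    unfold ext0
    rw [dif_pos ht]
  rw [par_congr (v' := fun n : ℕ => u (i - n)) (j := 0) (k := k) fun t _ h2 => h t (by omega),
    par_congr (v' := fun n : ℕ => u (i - n)) (j := 1) (k := k) fun t _ h2 => h t (by omega)]

theorem fb_hard {k b : ℕ} (u : ℤ → ℝ) (i : ℤ) :
    ¬ (bf (fb k b) u i = true ∧ bf (fb k b) u (i + 1) = true) := by
  rw [bf_fb, bf_fb]
  rintro ⟨⟨⟨s, hs, h1⟩, _⟩, ⟨_, s', hs', h2⟩⟩
  have h3 : am (fun n : ℕ => u (i + 1 - n)) 1 k (s + 1) := by
    refine ⟨by omega, by have := h1.2.1; omega, fun t h4 h5 h6 => ?_⟩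
    have h7 := h1.2.2 (t - 1) (by omega) (by omega) (by omega)
    have e1 : i - ((t - 1 : ℕ) : ℤ) = i + 1 - t := by
      rw [Nat.cast_sub h4]; push_cast; ring
    have e2 : i + 1 - ((s + 1 : ℕ) : ℤ) = i - s := by push_cast; ring
    simp only at h7 ⊢
    rw [e1] at h7
    rw [e2]
    exact h7
  have := am_unique h2 h3
  omega

theorem real_Z (c : ℤ) {Q : (ℕ → ℝ) → Prop} (hQ : Measurable Q) :
    (iid unif ℤ).real {u | Q (fun n : ℕ => u (c - n))} = (iid unif ℕ).real {v | Q v} := by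
  have hg : Function.Injective fun n : ℕ => c - (n : ℤ) := by
    intro a b h
    have h' : c - (a : ℤ) = c - (b : ℤ) := h
    omega
  have h := (mp_inj unif hg).measure_preimage (measurableSet_setOfPred.2 hQ).nullMeasurableSet
  unfold Measure.real
  rw [← h]
  rfl

theorem fb_density (k b : ℕ) : ((iid unif ℤ).map (bf (fb k b))).real {x | x 0 = true} =
    (iid unif ℕ).real {v | par v 0 k b ∧ par v 1 k b} := by
  have hs : MeasurableSet {x : ℤ → Bool | x 0 = true} :=
    measurableSet_eq_fun (measurable_pi_apply 0) measurable_const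
  rw [map_measureReal_apply (measurable_bf (measurable_fb k b)) hs,
    ← real_Z 0 ((meas_par 0 k b).and (meas_par 1 k b))]
  congr 1
  ext u
  simp only [Set.mem_preimage, Set.mem_ofPred_eq]
  exact bf_fb u 0

theorem fb_two (k b : ℕ) : ((iid unif ℤ).map (bf (fb k b))).real {x | x 2 = true ∧ x 0 = true} =
    (iid unif ℕ).real {v | four v k b} := by
  have hs : MeasurableSet {x : ℤ → Bool | x 2 = true ∧ x 0 = true} := by
    have h1 : MeasurableSet {x : ℤ → Bool | x 0 = true} :=
      measurableSet_eq_fun (measurable_pi_apply 0) measurable_const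
    have h2 : MeasurableSet {x : ℤ → Bool | x 2 = true} :=
      measurableSet_eq_fun (measurable_pi_apply 2) measurable_const
    exact h2.inter h1
  rw [map_measureReal_apply (measurable_bf (measurable_fb k b)) hs, ← real_Z 2 (meas_four k b)]
  congr 1
  ext u
  simp only [Set.mem_preimage, Set.mem_ofPred_eq]
  rw [bf_fb, bf_fb]
  unfold four
  have key : ∀ j, par (fun n : ℕ => u (0 - n)) j k b ↔ par (fun n : ℕ => u (2 - n)) (j + 2) k b := by
    intro j
    have e : (fun n : ℕ => u (0 - n)) = fun n : ℕ => (fun n : ℕ => u (2 - n)) (n + 2) := by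
      funext n
      show u (0 - (n : ℤ)) = u (2 - ((n + 2 : ℕ) : ℤ))
      congr 1
      push_cast
      ring
    rw [e]
    apply par_comp (v := fun n : ℕ => u (2 - n)) (add_left_injective 2)
    · intro t h1 h2
      omega
    · intro t h1 h2
      exact ⟨t - 2, by omega, by omega, by omega⟩
    · intro t h1 h2
      omega
  rw [key 0, key 1]
  tauto

end Pool.Agent.H31.HCB
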