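import Pool.Agent.H31.HCBlockFactor

/-!
# The critical hard-core 3-block factor is unique
-/

set_option autoImplicit false

open MeasureTheory ProbabilityTheory

namespace Pool.Agent.H31.HCB

section

variable {α : Type*} [MeasurableSpace α] (ν : Measure α) [IsProbabilityMeasure ν]

/-- If the density is `1 / 3`, almost every window has an occupied rotation. -/
theorem rot_exists {f : (Fin (2 * 1 + 1) → α) → Bool} (hf : Measurable f)
    (H : ∀ᵐ w ∂(iid ν (Fin (2 * 1 + 1 + 1))),
      ¬ (f (fun j => w j.succ) = true ∧ f (fun j => w j.castSucc) = true))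
    (hp : (iid ν (Fin (2 * 1 + 1))).real {w | f w = true} = 1 / 3) :
    ∀ᵐ w ∂(iid ν (Fin (2 * 1 + 1))), ∃ j : Fin (2 * 1 + 1), f (fun i => w (i - j)) = true := by
  classical
  have h1 := not_both ν hf H
  have hinj : ∀ j : Fin (2 * 1 + 1), Function.Injective (fun i : Fin (2 * 1 + 1) => i - j) :=
    fun j => sub_left_injective
  have mp : ∀ j : Fin (2 * 1 + 1), MeasurePreserving
      (fun (w : Fin (2 * 1 + 1) → α) (i : Fin (2 * 1 + 1)) => w (i - j))
      (iid ν (Fin (2 * 1 + 1))) (iid ν (Fin (2 * 1 + 1))) := fun j => mp_inj ν (hinj j)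
  have h2 : ∀ᵐ w ∂(iid ν (Fin (2 * 1 + 1))), ∀ j : Fin (2 * 1 + 1),
      ¬ (f (fun i => w (i - j)) = true ∧ f (fun i => w (i - (j + 1))) = true) := by
    rw [ae_all_iff]
    intro j
    have := (mp j).quasiMeasurePreserving.ae h1
    filter_upwards [this] with w hw
    have e : (fun i : Fin (2 * 1 + 1) => w (i - 1 - j)) = fun i => w (i - (j + 1)) := by
      funext i
      congr 1
      abel
    rw [e] at hw
    exact hw
  have hms : ∀ j : Fin (2 * 1 + 1), MeasurableSet
      {w : Fin (2 * 1 + 1) → α | f (fun i => w (i - j)) = true} := fun j =>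
    (meas_rot hf (fun i => i - j)) (MeasurableSet.of_discrete (s := {true}))
  have h3 : ∀ j : Fin (2 * 1 + 1), (iid ν (Fin (2 * 1 + 1))).real
      {w | f (fun i => w (i - j)) = true} = 1 / 3 := by
    intro j
    rw [← hp]
    have hs : MeasurableSet {w : Fin (2 * 1 + 1) → α | f w = true} :=
      hf (MeasurableSet.of_discrete (s := {true}))
    have := (mp j).measure_preimage hs.nullMeasurableSet
    unfold Measure.real
    rw [← this]
    rfl
  have h4 : ∫ w, ∑ j : Fin (2 * 1 + 1), ({w : Fin (2 * 1 + 1) → α | f (fun i => w (i - j)) = true}).indicator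
      (fun _ => (1 : ℝ)) w ∂(iid ν (Fin (2 * 1 + 1))) = ∫ _w, (1 : ℝ) ∂(iid ν (Fin (2 * 1 + 1))) := by
    rw [integral_finsetSum]
    · have : ∀ j : Fin (2 * 1 + 1), ∫ w, ({w : Fin (2 * 1 + 1) → α | f (fun i => w (i - j)) = true}).indicator
          (fun _ => (1 : ℝ)) w ∂(iid ν (Fin (2 * 1 + 1))) = 1 / 3 := by
        intro j
        rw [← h3 j]
        exact integral_indicator_one (hms j)
      rw [Finset.sum_congr rfl fun j _ => this j]
      simp
    · intro j _
      exact (integrable_const (1 : ℝ)).indicator (hms j)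
  have hcount : ∀ w : Fin (2 * 1 + 1) → α,
      ∑ j : Fin (2 * 1 + 1), ({w : Fin (2 * 1 + 1) → α | f (fun i => w (i - j)) = true}).indicator
          (fun _ => (1 : ℝ)) w = ((Finset.univ.filter fun j : Fin (2 * 1 + 1) =>
        f (fun i => w (i - j)) = true).card : ℝ) := by
    intro w
    rw [Finset.card_eq_sum_ones, Finset.sum_filter]
    push_cast
    refine Finset.sum_congr rfl fun j _ => ?_
    simp only [Set.indicator, Set.mem_ofPred_eq]
  have h5 : (fun w => ∑ j : Fin (2 * 1 + 1), ({w : Fin (2 * 1 + 1) → α | f (fun i => w (i - j)) = true}).indicator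
      (fun _ => (1 : ℝ)) w) ≤ᵐ[iid ν (Fin (2 * 1 + 1))] fun _ => (1 : ℝ) := by
    filter_upwards [h2] with w hw
    have hc := card_cyc (Finset.univ.filter fun j : Fin (2 * 1 + 1) =>
      f (fun i => w (i - j)) = true) (by
        intro j hj hj'
        rw [Finset.mem_filter] at hj hj'
        exact hw j ⟨hj.2, hj'.2⟩)
    rw [hcount w]
    exact_mod_cast (by omega : (Finset.univ.filter fun j : Fin (2 * 1 + 1) =>
      f (fun i => w (i - j)) = true).card ≤ 1)
  have h6 := (integral_eq_iff_of_ae_le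
    (integrable_finsetSum _ fun j _ => (integrable_const (1 : ℝ)).indicator (hms j))
    (integrable_const _) h5).1 h4
  filter_upwards [h6] with w hw
  rw [hcount w] at hw
  by_contra hne
  push Not at hne
  have : (Finset.univ.filter fun j : Fin (2 * 1 + 1) => f (fun i => w (i - j)) = true) = ∅ := by
    rw [Finset.filter_eq_empty_iff]
    intro j _ h
    exact hne j h
  rw [this] at hw
  simp at hw

/-- Splitting off one variable. -/
theorem ae_split (n : ℕ) (i : Fin (n + 1)) {P : α → (Fin n → α) → Prop}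
    (hP : MeasurableSet {z : α × (Fin n → α) | P z.1 z.2}) :
    (∀ᵐ w ∂(iid ν (Fin (n + 1))), P (w i) (fun j => w (i.succAbove j))) ↔
      ∀ᵐ v ∂(iid ν (Fin n)), ∀ᵐ x ∂ν, P x v := by
  rw [← Measure.ae_ae_comm (p := P) hP, ← Measure.ae_prod_iff_ae_ae hP,
    ← (mp_split ν n i).map_eq, ae_map_iff (mp_split ν n i).measurable.aemeasurable hP]

theorem ae_split' (n : ℕ) (i : Fin (n + 1)) {P : α → (Fin n → α) → Prop}
    (hP : MeasurableSet {z : α × (Fin n → α) | P z.1 z.2}) :
    (∀ᵐ w ∂(iid ν (Fin (n + 1))), P (w i) (fun j => w (i.succAbove j))) ↔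
      ∀ᵐ x ∂ν, ∀ᵐ v ∂(iid ν (Fin n)), P x v := by
  rw [ae_split ν n i hP, Measure.ae_ae_comm (p := P) hP]

/-- Three independent variables cannot avoid being together in a set of positive measure. -/
theorem null_of_triple {D : Set α} (h : ∀ᵐ w ∂(iid ν (Fin 3)), ¬ ∀ i, w i ∈ D) :
    ν D = 0 := by
  rw [ae_iff] at h
  have e : {a : Fin 3 → α | ¬ ¬ ∀ i, a i ∈ D} = Set.pi Set.univ fun _ => D := by
    ext a
    simp
  rw [e] at h
  unfold iid at h
  rw [Measure.infinitePi_eq_pi, Measure.pi_pi] at h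
  simpa using h

/-- Transport of an almost sure property to other indices. -/
theorem ae_inj {ι κ : Type*} {g : κ → ι} (hg : Function.Injective g) {P : (κ → α) → Prop}
    (h : ∀ᵐ w ∂(iid ν κ), P w) : ∀ᵐ u ∂(iid ν ι), P (fun i => u (g i)) :=
  (mp_inj ν hg).quasiMeasurePreserving.ae h

theorem ae_eval {ι : Type*} (i : ι) {Q : α → Prop} (h : ∀ᵐ x ∂ν, Q x) :
    ∀ᵐ u ∂(iid ν ι), Q (u i) :=
  (measurePreserving_eval_infinitePi (fun _ : ι => ν) i).quasiMeasurePreserving.ae h

theorem ae_triples {ι : Type*} [Countable ι] {P : α → α → α → Prop}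
    (h : ∀ᵐ w ∂(iid ν (Fin 3)), P (w 0) (w 1) (w 2)) :
    ∀ᵐ u ∂(iid ν ι), ∀ i j k, i ≠ j → j ≠ k → i ≠ k → P (u i) (u j) (u k) := by
  rw [ae_all_iff]; intro i
  rw [ae_all_iff]; intro j
  rw [ae_all_iff]; intro k
  by_cases hd : i ≠ j ∧ j ≠ k ∧ i ≠ k
  · have hg : Function.Injective (![i, j, k] : Fin 3 → ι) := by
      intro a b hab
      obtain ⟨h1, h2, h3⟩ := hd
      fin_cases a <;> fin_cases b <;> simp_all
    filter_upwards [ae_inj ν hg h] with u hu _ _ _
    exact hu
  · refine Filter.Eventually.of_forall fun u h1 h2 h3 => absurd ⟨h1, h2, h3⟩ hd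

theorem ae_pairs {ι : Type*} [Countable ι] {P : α → α → Prop}
    (h : ∀ᵐ w ∂(iid ν (Fin 2)), P (w 0) (w 1)) :
    ∀ᵐ u ∂(iid ν ι), ∀ i j, i ≠ j → P (u i) (u j) := by
  rw [ae_all_iff]; intro i
  rw [ae_all_iff]; intro j
  by_cases hd : i ≠ j
  · have hg : Function.Injective (![i, j] : Fin 2 → ι) := by
      intro a b hab
      fin_cases a <;> fin_cases b <;> simp_all
    filter_upwards [ae_inj ν hg h] with u hu _
    exact hu
  · refine Filter.Eventually.of_forall fun u h1 => absurd h1 hd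

/-- Two relations without monochromatic cyclic triples: no symmetric pairs. -/
theorem noSym {A B : α → α → Prop} (hA : Measurable fun p : α × α => A p.1 p.2)
    (hAAA : ∀ᵐ w ∂(iid ν (Fin 3)), ¬ (A (w 0) (w 1) ∧ A (w 1) (w 2) ∧ A (w 2) (w 0)))
    (hBBB : ∀ᵐ w ∂(iid ν (Fin 3)), ¬ (B (w 0) (w 1) ∧ B (w 1) (w 2) ∧ B (w 2) (w 0)))
    (hAB : ∀ᵐ w ∂(iid ν (Fin 2)), A (w 0) (w 1) ∨ B (w 0) (w 1)) :
    ∀ᵐ w ∂(iid ν (Fin 2)), ¬ (A (w 0) (w 1) ∧ A (w 1) (w 0)) := by
  have h1 : ∀ᵐ w ∂(iid ν (Fin 4)), ¬ ∀ i : Fin 3, A (w 0) (w ((0 : Fin 4).succAbove i)) ∧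
      A (w ((0 : Fin 4).succAbove i)) (w 0) := by
    filter_upwards [ae_triples ν (ι := Fin 4)
      (P := fun x y z => ¬ (A x y ∧ A y z ∧ A z x)) hAAA, ae_triples ν (ι := Fin 4)
      (P := fun x y z => ¬ (B x y ∧ B y z ∧ B z x)) hBBB, ae_pairs ν (ι := Fin 4)
      (P := fun x y => A x y ∨ B x y) hAB] with w a1 a2 a3 hw
    have b0 := hw 0
    have b1 := hw 1
    have b2 := hw 2
    have key : ∀ i j : Fin 4, i ≠ j → i ≠ 0 → j ≠ 0 → A (w 0) (w i) → A (w j) (w 0) →
        B (w i) (w j) := by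
      intro i j h1 h2 h3 h4 h5
      rcases a3 i j h1 with h | h
      · exact absurd ⟨h, h5, h4⟩ (a1 i j 0 h1 h3 h2)
      · exact h
    have c0 : (0 : Fin 4).succAbove (0 : Fin 3) = 1 := rfl
    have c1 : (0 : Fin 4).succAbove (1 : Fin 3) = 2 := rfl
    have c2 : (0 : Fin 4).succAbove (2 : Fin 3) = 3 := rfl
    rw [c0] at b0
    rw [c1] at b1
    rw [c2] at b2
    exact a2 1 2 3 (by decide) (by decide) (by decide)
      ⟨key 1 2 (by decide) (by decide) (by decide) b0.1 b1.2,
        key 2 3 (by decide) (by decide) (by decide) b1.1 b2.2,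
        key 3 1 (by decide) (by decide) (by decide) b2.1 b0.2⟩
  have m1 : MeasurableSet {z : α × (Fin 3 → α) | ¬ ∀ i : Fin 3, A z.1 (z.2 i) ∧ A (z.2 i) z.1} := by
    apply MeasurableSet.compl
    apply measurableSet_setOfPred.2
    refine Measurable.forall fun i => ?_
    exact (hA.comp (by fun_prop : Measurable fun z : α × (Fin 3 → α) => (z.1, z.2 i))).and
      (hA.comp (by fun_prop : Measurable fun z : α × (Fin 3 → α) => (z.2 i, z.1)))
  have h2 := (ae_split' ν 3 0 (P := fun x v => ¬ ∀ i : Fin 3, A x (v i) ∧ A (v i) x) m1).1 h1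
  have h3 : ∀ᵐ x ∂ν, ∀ᵐ z ∂ν, ¬ (A x z ∧ A z x) := by
    filter_upwards [h2] with x hx
    have := null_of_triple ν (D := {z | A x z ∧ A z x}) hx
    rw [ae_iff]
    simpa using this
  have m2 : MeasurableSet {z : α × (Fin 1 → α) | ¬ (A z.1 (z.2 0) ∧ A (z.2 0) z.1)} := by
    apply MeasurableSet.compl
    apply measurableSet_setOfPred.2
    exact (hA.comp (by fun_prop : Measurable fun z : α × (Fin 1 → α) => (z.1, z.2 0))).and
      (hA.comp (by fun_prop : Measurable fun z : α × (Fin 1 → α) => (z.2 0, z.1)))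
  refine (ae_split' ν 1 0 (P := fun x v => ¬ (A x (v 0) ∧ A (v 0) x)) m2).2 ?_
  filter_upwards [h3] with x hx
  exact ae_eval ν 0 hx

/-- The window condition as a ternary relation. -/
def FF (f : (Fin 3 → α) → Bool) (x y z : α) : Prop := f ![x, y, z] = true

theorem measurable_FF {f : (Fin 3 → α) → Bool} (hf : Measurable f) {β : Type*} [MeasurableSpace β]
    {a b c : β → α} (ha : Measurable a) (hb : Measurable b) (hc : Measurable c) :
    Measurable fun t => FF f (a t) (b t) (c t) := by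
  apply measurableSet_setOfPred.1
  have h : Measurable fun t => (![a t, b t, c t] : Fin 3 → α) := by
    refine measurable_pi_iff.2 fun i => ?_
    fin_cases i
    · exact ha
    · exact hb
    · exact hc
  exact (hf.comp h) (MeasurableSet.of_discrete (s := {true}))

/-- The structure of the extremal windows: `f (x, y, z) = 1` if and only if `y` is larger than `x`
and `z`, for a strict linear order of the labels. -/
theorem structure_thm {f : (Fin 3 → α) → Bool} (hf : Measurable f)
    (H : ∀ᵐ w ∂(iid ν (Fin 4)), ¬ (FF f (w 1) (w 2) (w 3) ∧ FF f (w 0) (w 1) (w 2)))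
    (E : ∀ᵐ w ∂(iid ν (Fin 3)), FF f (w 0) (w 1) (w 2) ∨ FF f (w 2) (w 0) (w 1) ∨
      FF f (w 1) (w 2) (w 0)) :
    ∃ A : α → α → Prop,
      (∀ᵐ w ∂(iid ν (Fin 2)), (A (w 0) (w 1) ↔ ¬ A (w 1) (w 0))) ∧
      (∀ᵐ w ∂(iid ν (Fin 3)), A (w 0) (w 1) → A (w 1) (w 2) → A (w 0) (w 2)) ∧
      (∀ᵐ w ∂(iid ν (Fin 3)), (FF f (w 0) (w 1) (w 2) ↔ A (w 0) (w 1) ∧ A (w 2) (w 1))) := by
  let A : α → α → Prop := fun x y => ν {z | FF f x y z} ≠ 0
  let B : α → α → Prop := fun y z => ν {x | FF f x y z} ≠ 0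
  have hA : Measurable fun p : α × α => A p.1 p.2 := by
    have hS : MeasurableSet {q : (α × α) × α | FF f q.1.1 q.1.2 q.2} :=
      measurableSet_setOfPred.2 (measurable_FF hf (by fun_prop) (by fun_prop) (by fun_prop))
    have h := measurable_measure_prodMk_left (ν := ν) hS
    apply measurableSet_setOfPred.1
    exact (h (measurableSet_singleton 0)).compl
  have hB : Measurable fun p : α × α => B p.1 p.2 := by
    have hS : MeasurableSet {q : (α × α) × α | FF f q.2 q.1.1 q.1.2} :=
      measurableSet_setOfPred.2 (measurable_FF hf (by fun_prop) (by fun_prop) (by fun_prop))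
    have h := measurable_measure_prodMk_left (ν := ν) hS
    apply measurableSet_setOfPred.1
    exact (h (measurableSet_singleton 0)).compl
  have notA : ∀ x y, (∀ᵐ z ∂ν, ¬ FF f x y z) → ¬ A x y := by
    intro x y h h'
    apply h'
    rw [ae_iff] at h
    simpa using h
  have notB : ∀ y z, (∀ᵐ x ∂ν, ¬ FF f x y z) → ¬ B y z := by
    intro x y h h'
    apply h'
    rw [ae_iff] at h
    simpa using h
  -- `f = 1` needs `A` on the left and `B` on the right
  have Pa : ∀ᵐ w ∂(iid ν (Fin 3)), FF f (w 0) (w 1) (w 2) → A (w 0) (w 1) := by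
    have m : MeasurableSet {z : α × (Fin 2 → α) | FF f (z.2 0) (z.2 1) z.1 → A (z.2 0) (z.2 1)} := by
      apply measurableSet_setOfPred.2
      exact (measurable_FF hf (by fun_prop) (by fun_prop) (by fun_prop)).imp
        (hA.comp (by fun_prop : Measurable fun z : α × (Fin 2 → α) => (z.2 0, z.2 1)))
    refine (ae_split ν 2 (Fin.last 2) (P := fun x v => FF f (v 0) (v 1) x → A (v 0) (v 1)) m).2 ?_
    refine Filter.Eventually.of_forall fun v => ?_
    by_cases h : A (v 0) (v 1)
    · exact Filter.Eventually.of_forall fun _ _ => h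
    · have h' : ν {z | FF f (v 0) (v 1) z} = 0 := not_not.1 h
      have : ∀ᵐ z ∂ν, ¬ FF f (v 0) (v 1) z := by
        rw [ae_iff]
        simpa using h'
      filter_upwards [this] with z hz hz'
      exact absurd hz' hz
  have Pb : ∀ᵐ w ∂(iid ν (Fin 3)), FF f (w 0) (w 1) (w 2) → B (w 1) (w 2) := by
    have m : MeasurableSet {z : α × (Fin 2 → α) | FF f z.1 (z.2 0) (z.2 1) → B (z.2 0) (z.2 1)} := by
      apply measurableSet_setOfPred.2
      exact (measurable_FF hf (by fun_prop) (by fun_prop) (by fun_prop)).imp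
        (hB.comp (by fun_prop : Measurable fun z : α × (Fin 2 → α) => (z.2 0, z.2 1)))
    refine (ae_split ν 2 0 (P := fun x v => FF f x (v 0) (v 1) → B (v 0) (v 1)) m).2 ?_
    refine Filter.Eventually.of_forall fun v => ?_
    by_cases h : B (v 0) (v 1)
    · exact Filter.Eventually.of_forall fun _ _ => h
    · have h' : ν {z | FF f z (v 0) (v 1)} = 0 := not_not.1 h
      have : ∀ᵐ z ∂ν, ¬ FF f z (v 0) (v 1) := by
        rw [ae_iff]
        simpa using h'
      filter_upwards [this] with z hz hz'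
      exact absurd hz' hz
  -- `A` and `B` exclude each other
  have Q1 : ∀ᵐ v ∂(iid ν (Fin 3)), FF f (v 0) (v 1) (v 2) → ¬ B (v 0) (v 1) := by
    have m : MeasurableSet {z : α × (Fin 3 → α) |
        ¬ (FF f (z.2 0) (z.2 1) (z.2 2) ∧ FF f z.1 (z.2 0) (z.2 1))} := by
      apply MeasurableSet.compl
      apply measurableSet_setOfPred.2
      exact (measurable_FF hf (by fun_prop) (by fun_prop) (by fun_prop)).and
        (measurable_FF hf (by fun_prop) (by fun_prop) (by fun_prop))
    have h := (ae_split ν 3 0 (P := fun x v =>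
      ¬ (FF f (v 0) (v 1) (v 2) ∧ FF f x (v 0) (v 1))) m).1 H
    filter_upwards [h] with v hv hf1
    apply notB
    filter_upwards [hv] with x hx hx'
    exact hx ⟨hf1, hx'⟩
  have Q2 : ∀ᵐ v ∂(iid ν (Fin 2)), ¬ (A (v 0) (v 1) ∧ B (v 0) (v 1)) := by
    have m : MeasurableSet {z : α × (Fin 2 → α) | FF f (z.2 0) (z.2 1) z.1 → ¬ B (z.2 0) (z.2 1)} := by
      apply measurableSet_setOfPred.2
      exact (measurable_FF hf (by fun_prop) (by fun_prop) (by fun_prop)).imp
        (hB.comp (by fun_prop : Measurable fun z : α × (Fin 2 → α) => (z.2 0, z.2 1))).not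
    have h := (ae_split ν 2 (Fin.last 2) (P := fun x v => FF f (v 0) (v 1) x → ¬ B (v 0) (v 1)) m).1 Q1
    filter_upwards [h] with v hv hAB
    apply notA (v 0) (v 1) _ hAB.1
    filter_upwards [hv] with z hz hz'
    exact hz hz' hAB.2
  -- no monochromatic cyclic triples
  have NA : ∀ᵐ w ∂(iid ν (Fin 3)), ¬ (A (w 0) (w 1) ∧ A (w 1) (w 2) ∧ A (w 2) (w 0)) := by
    filter_upwards [E, ae_triples ν (ι := Fin 3) (P := fun x y z => FF f x y z → B y z) Pb,
      ae_pairs ν (ι := Fin 3) (P := fun x y => ¬ (A x y ∧ B x y)) Q2] with w e pb q hw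
    rcases e with e | e | e
    · exact q 1 2 (by decide) ⟨hw.2.1, pb 0 1 2 (by decide) (by decide) (by decide) e⟩
    · exact q 0 1 (by decide) ⟨hw.1, pb 2 0 1 (by decide) (by decide) (by decide) e⟩
    · exact q 2 0 (by decide) ⟨hw.2.2, pb 1 2 0 (by decide) (by decide) (by decide) e⟩
  have NB : ∀ᵐ w ∂(iid ν (Fin 3)), ¬ (B (w 0) (w 1) ∧ B (w 1) (w 2) ∧ B (w 2) (w 0)) := by
    filter_upwards [E, ae_triples ν (ι := Fin 3) (P := fun x y z => FF f x y z → A x y) Pa,
      ae_pairs ν (ι := Fin 3) (P := fun x y => ¬ (A x y ∧ B x y)) Q2] with w e pa q hw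
    rcases e with e | e | e
    · exact q 0 1 (by decide) ⟨pa 0 1 2 (by decide) (by decide) (by decide) e, hw.1⟩
    · exact q 2 0 (by decide) ⟨pa 2 0 1 (by decide) (by decide) (by decide) e, hw.2.2⟩
    · exact q 1 2 (by decide) ⟨pa 1 2 0 (by decide) (by decide) (by decide) e, hw.2.1⟩
  -- pairs with neither `A` nor `B`
  have O1 : ∀ᵐ w ∂(iid ν (Fin 3)), ¬ A (w 0) (w 1) → ¬ B (w 0) (w 1) → A (w 1) (w 2) := by
    filter_upwards [E, ae_triples ν (ι := Fin 3) (P := fun x y z => FF f x y z → A x y) Pa,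
      ae_triples ν (ι := Fin 3) (P := fun x y z => FF f x y z → B y z) Pb] with w e pa pb h1 h2
    rcases e with e | e | e
    · exact absurd (pa 0 1 2 (by decide) (by decide) (by decide) e) h1
    · exact absurd (pb 2 0 1 (by decide) (by decide) (by decide) e) h2
    · exact pa 1 2 0 (by decide) (by decide) (by decide) e
  let D : Set α := {y | ν {x | ¬ A x y ∧ ¬ B x y} ≠ 0}
  have O2 : ∀ᵐ v ∂(iid ν (Fin 2)), v 0 ∈ D → A (v 0) (v 1) := by
    have m : MeasurableSet {z : α × (Fin 2 → α) |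
        ¬ A z.1 (z.2 0) → ¬ B z.1 (z.2 0) → A (z.2 0) (z.2 1)} := by
      apply measurableSet_setOfPred.2
      exact (hA.comp (by fun_prop : Measurable fun z : α × (Fin 2 → α) => (z.1, z.2 0))).not.imp
        ((hB.comp (by fun_prop : Measurable fun z : α × (Fin 2 → α) => (z.1, z.2 0))).not.imp
          (hA.comp (by fun_prop : Measurable fun z : α × (Fin 2 → α) => (z.2 0, z.2 1))))
    have h := (ae_split ν 2 0 (P := fun x v =>
      ¬ A x (v 0) → ¬ B x (v 0) → A (v 0) (v 1)) m).1 O1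
    filter_upwards [h] with v hv hD
    refine Classical.byContradiction fun hn => hD ?_
    have : ∀ᵐ x ∂ν, ¬ (¬ A x (v 0) ∧ ¬ B x (v 0)) := by
      filter_upwards [hv] with x hx hx'
      exact hn (hx hx'.1 hx'.2)
    rw [ae_iff] at this
    simpa using this
  have O3 : ν D = 0 := by
    apply null_of_triple ν
    filter_upwards [NA, ae_pairs ν (ι := Fin 3) (P := fun x y => x ∈ D → A x y) O2] with w na o hw
    exact na ⟨o 0 1 (by decide) (hw 0), o 1 2 (by decide) (hw 1), o 2 0 (by decide) (hw 2)⟩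
  have O4 : ∀ᵐ w ∂(iid ν (Fin 2)), A (w 0) (w 1) ∨ B (w 0) (w 1) := by
    have m : MeasurableSet {z : α × (Fin 1 → α) | A z.1 (z.2 0) ∨ B z.1 (z.2 0)} := by
      apply measurableSet_setOfPred.2
      exact (hA.comp (by fun_prop : Measurable fun z : α × (Fin 1 → α) => (z.1, z.2 0))).or
        (hB.comp (by fun_prop : Measurable fun z : α × (Fin 1 → α) => (z.1, z.2 0)))
    refine (ae_split ν 1 0 (P := fun x v => A x (v 0) ∨ B x (v 0)) m).2 ?_
    have h0 : ∀ᵐ y ∂ν, y ∉ D := by
      rw [ae_iff]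
      simpa using O3
    filter_upwards [ae_eval ν (0 : Fin 1) h0] with v hv
    have h1 : ν {x | ¬ A x (v 0) ∧ ¬ B x (v 0)} = 0 := not_not.1 hv
    have h2 : ∀ᵐ x ∂ν, ¬ (¬ A x (v 0) ∧ ¬ B x (v 0)) := by
      rw [ae_iff]
      simpa using h1
    filter_upwards [h2] with x hx
    by_contra hn
    push Not at hn
    exact hx hn
  have O4' : ∀ᵐ w ∂(iid ν (Fin 2)), B (w 0) (w 1) ∨ A (w 0) (w 1) := by
    filter_upwards [O4] with w hw
    exact hw.symm
  have S1 := noSym ν hA NA NB O4
  have S2 := noSym ν hB NB NA O4'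
  have T : ∀ᵐ w ∂(iid ν (Fin 2)), (A (w 0) (w 1) ↔ ¬ A (w 1) (w 0)) := by
    filter_upwards [S1, S2, ae_pairs ν (ι := Fin 2) (P := fun x y => A x y ∨ B x y) O4]
      with w s1 s2 o
    constructor
    · exact fun h1 h2 => s1 ⟨h1, h2⟩
    · intro h
      rcases o 1 0 (by decide) with h1 | h1
      · exact absurd h1 h
      · rcases o 0 1 (by decide) with h2 | h2
        · exact h2
        · exact absurd ⟨h2, h1⟩ s2
  refine ⟨A, T, ?_, ?_⟩
  · filter_upwards [NA, ae_pairs ν (ι := Fin 3) (P := fun x y => (A x y ↔ ¬ A y x)) T] with w na t h1 h2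
    rw [t 0 2 (by decide)]
    exact fun h3 => na ⟨h1, h2, h3⟩
  · filter_upwards [E, Pa, ae_triples ν (ι := Fin 3) (P := fun x y z => FF f x y z → A x y) Pa,
      ae_triples ν (ι := Fin 3) (P := fun x y z => FF f x y z → B y z) Pb,
      ae_pairs ν (ι := Fin 3) (P := fun x y => ¬ (A x y ∧ B x y)) Q2,
      ae_pairs ν (ι := Fin 3) (P := fun x y => (A x y ↔ ¬ A y x)) T] with w e _ pa pb q t
    constructor
    · intro h
      refine ⟨pa 0 1 2 (by decide) (by decide) (by decide) h, ?_⟩
      rw [t 2 1 (by decide)]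
      exact fun h' => q 1 2 (by decide) ⟨h', pb 0 1 2 (by decide) (by decide) (by decide) h⟩
    · rintro ⟨h1, h2⟩
      rcases e with e | e | e
      · exact e
      · exact absurd ⟨h1, pb 2 0 1 (by decide) (by decide) (by decide) e⟩ (q 0 1 (by decide))
      · exact absurd (pa 1 2 0 (by decide) (by decide) (by decide) e) ((t 2 1 (by decide)).1 h2)

end

/-- A transitive tournament on a finite set is given by a ranking. -/
theorem exists_rank {J : Type*} [Fintype J] (R : J → J → Prop)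
    (hT : ∀ i j, i ≠ j → (R i j ↔ ¬ R j i))
    (hR : ∀ i j k, i ≠ j → j ≠ k → i ≠ k → R i j → R j k → R i k) :
    ∃ σ : J ≃ Fin (Fintype.card J), ∀ i j, i ≠ j → (R i j ↔ σ i < σ j) := by
  classical
  let ρ : J → ℕ := fun j => (Finset.univ.filter fun i => i ≠ j ∧ R i j).card
  have hlt : ∀ j, ρ j < Fintype.card J := by
    intro j
    apply Finset.card_lt_card (s := Finset.univ.filter fun i => i ≠ j ∧ R i j) (t := Finset.univ)
    rw [Finset.ssubset_univ_iff]
    intro h
    have := Finset.mem_univ j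
    rw [← h, Finset.mem_filter] at this
    exact this.2.1 rfl
  have hmono : ∀ i j, i ≠ j → R i j → ρ i < ρ j := by
    intro i j hij h
    apply Finset.card_lt_card
    rw [Finset.ssubset_iff_of_subset]
    · refine ⟨i, ?_, ?_⟩
      · rw [Finset.mem_filter]
        exact ⟨Finset.mem_univ _, hij, h⟩
      · rw [Finset.mem_filter]
        exact fun h' => h'.2.1 rfl
    · intro l hl
      rw [Finset.mem_filter] at hl ⊢
      have hlj : l ≠ j := by
        rintro rfl
        exact (hT i l hij).1 h hl.2.2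
      exact ⟨Finset.mem_univ _, hlj, hR l i j hl.2.1 hij hlj hl.2.2 h⟩
  let τ : J → Fin (Fintype.card J) := fun j => ⟨ρ j, hlt j⟩
  have hinj : Function.Injective τ := by
    intro i j h
    by_contra hne
    have h' : ρ i = ρ j := congrArg (fun z : Fin (Fintype.card J) => (z : ℕ)) h
    by_cases h1 : R i j
    · exact absurd (hmono i j hne h1) (by omega)
    · have h2 : R j i := (hT j i (Ne.symm hne)).2 h1
      exact absurd (hmono j i (Ne.symm hne) h2) (by omega)
  have hbij : Function.Bijective τ := by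
    rw [Fintype.bijective_iff_injective_and_card]
    exact ⟨hinj, by simp⟩
  refine ⟨Equiv.ofBijective τ hbij, fun i j hij => ?_⟩
  show R i j ↔ τ i < τ j
  constructor
  · exact fun h => hmono i j hij h
  · intro h
    by_contra h1
    have h2 := hmono j i (Ne.symm hij) ((hT j i (Ne.symm hij)).2 h1)
    have h3 : ρ i < ρ j := h
    omega

/-- The peaks of a ranking. -/
noncomputable def pk {I J : Type*} {n : ℕ} (t0 t1 t2 : I → J) (σ : J ≃ Fin n) (i : I) : Bool :=
  decide (σ (t0 i) < σ (t1 i) ∧ σ (t2 i) < σ (t1 i))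

section

variable {α : Type*} [MeasurableSpace α] (ν : Measure α) [IsProbabilityMeasure ν]

/-- The law of an extremal block factor on a finite set of sites is universal. -/
theorem universal {f : (Fin 3 → α) → Bool} (hf : Measurable f)
    (H : ∀ᵐ w ∂(iid ν (Fin 4)), ¬ (FF f (w 1) (w 2) (w 3) ∧ FF f (w 0) (w 1) (w 2)))
    (E : ∀ᵐ w ∂(iid ν (Fin 3)), FF f (w 0) (w 1) (w 2) ∨ FF f (w 2) (w 0) (w 1) ∨
      FF f (w 1) (w 2) (w 0))
    {I J : Type*} [Fintype J] [DecidableEq J] [Countable I] (t0 t1 t2 : I → J)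
    (h01 : ∀ i, t0 i ≠ t1 i) (h12 : ∀ i, t1 i ≠ t2 i) (h02 : ∀ i, t0 i ≠ t2 i)
    {S : Set (I → Bool)} (hS : MeasurableSet S) [DecidablePred (· ∈ S)] :
    (Fintype.card (Equiv.Perm J) : ℝ) *
      (iid ν J).real {u | (fun i => f ![u (t0 i), u (t1 i), u (t2 i)]) ∈ S} =
      ((Finset.univ.filter fun σ : J ≃ Fin (Fintype.card J) => pk t0 t1 t2 σ ∈ S).card : ℝ) := by
  obtain ⟨A, hT, hR, hC⟩ := structure_thm ν hf H E
  have mX : Measurable fun (u : J → α) (i : I) => f ![u (t0 i), u (t1 i), u (t2 i)] := by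
    refine measurable_pi_iff.2 fun i => hf.comp ?_
    refine measurable_pi_iff.2 fun l => ?_
    fin_cases l
    · exact measurable_pi_apply _
    · exact measurable_pi_apply _
    · exact measurable_pi_apply _
  have mS : MeasurableSet {u : J → α | (fun i => f ![u (t0 i), u (t1 i), u (t2 i)]) ∈ S} := mX hS
  have mp : ∀ τ : Equiv.Perm J, MeasurePreserving (fun (u : J → α) (i : J) => u (τ i))
      (iid ν J) (iid ν J) := fun τ => mp_inj ν τ.injective
  have h1 : ∀ τ : Equiv.Perm J, ∫ u, ({u : J → α |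
      (fun i => f ![u (t0 i), u (t1 i), u (t2 i)]) ∈ S}).indicator (fun _ => (1 : ℝ))
        (fun i => u (τ i)) ∂(iid ν J) =
      (iid ν J).real {u | (fun i => f ![u (t0 i), u (t1 i), u (t2 i)]) ∈ S} := by
    intro τ
    have h := (mp τ).measure_preimage mS.nullMeasurableSet
    have e : (fun u : J → α => ({u : J → α |
      (fun i => f ![u (t0 i), u (t1 i), u (t2 i)]) ∈ S}).indicator (fun _ => (1 : ℝ))
        (fun i => u (τ i))) = ((fun (u : J → α) (i : J) => u (τ i)) ⁻¹' {u : J → α |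
      (fun i => f ![u (t0 i), u (t1 i), u (t2 i)]) ∈ S}).indicator (fun _ => (1 : ℝ)) := by
      funext u
      rfl
    rw [e]
    have h2 := integral_indicator_one (μ := iid ν J) ((mp τ).measurable mS)
    refine h2.trans ?_
    unfold Measure.real
    rw [h]
  have h2 : ∫ u, ∑ τ : Equiv.Perm J, ({u : J → α |
      (fun i => f ![u (t0 i), u (t1 i), u (t2 i)]) ∈ S}).indicator (fun _ => (1 : ℝ))
        (fun i => u (τ i)) ∂(iid ν J) = (Fintype.card (Equiv.Perm J) : ℝ) *
      (iid ν J).real {u | (fun i => f ![u (t0 i), u (t1 i), u (t2 i)]) ∈ S} := by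
    rw [integral_finsetSum]
    · rw [Finset.sum_congr rfl fun τ _ => h1 τ, Finset.sum_const, Finset.card_univ, nsmul_eq_mul]
    · intro τ _
      have h := (integrable_const (μ := iid ν J) (1 : ℝ)).indicator ((mp τ).measurable mS)
      exact h
  rw [← h2]
  have h3 : (fun u : J → α => ∑ τ : Equiv.Perm J, ({u : J → α |
      (fun i => f ![u (t0 i), u (t1 i), u (t2 i)]) ∈ S}).indicator (fun _ => (1 : ℝ))
        (fun i => u (τ i))) =ᵐ[iid ν J] fun _ =>
      ((Finset.univ.filter fun σ : J ≃ Fin (Fintype.card J) => pk t0 t1 t2 σ ∈ S).card : ℝ) := by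
    filter_upwards [ae_pairs ν (ι := J) (P := fun x y => (A x y ↔ ¬ A y x)) hT,
      ae_triples ν (ι := J) (P := fun x y z => A x y → A y z → A x z) hR,
      ae_triples ν (ι := J) (P := fun x y z => (FF f x y z ↔ A x y ∧ A z y)) hC] with u uT uR uC
    obtain ⟨σ, hσ⟩ := exists_rank (fun i j => A (u i) (u j)) uT uR
    have key : ∀ τ : Equiv.Perm J, (fun i => f ![u (τ (t0 i)), u (τ (t1 i)), u (τ (t2 i))]) =
        pk t0 t1 t2 (τ.trans σ) := by
      intro τ
      funext i
      rw [Bool.eq_iff_iff]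
      have n01 : τ (t0 i) ≠ τ (t1 i) := τ.injective.ne (h01 i)
      have n12 : τ (t1 i) ≠ τ (t2 i) := τ.injective.ne (h12 i)
      have n02 : τ (t0 i) ≠ τ (t2 i) := τ.injective.ne (h02 i)
      have := uC (τ (t0 i)) (τ (t1 i)) (τ (t2 i)) n01 n12 n02
      unfold FF at this
      rw [this, hσ _ _ n01, hσ _ _ n12.symm]
      exact decide_eq_true_iff.symm
    rw [Finset.card_eq_sum_ones, Finset.sum_filter]
    push_cast
    refine Fintype.sum_equiv (⟨fun τ => τ.trans σ, fun σ' => σ'.trans σ.symm, fun τ => by ext; simp,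
      fun σ' => by ext; simp⟩ : Equiv.Perm J ≃ (J ≃ Fin (Fintype.card J))) _ _ fun τ => ?_
    simp only [Set.indicator, Set.mem_ofPred_eq, Equiv.coe_fn_mk]
    rw [key τ]
  rw [integral_congr_ae h3]
  simp

/-- The assumptions of `universal` for a hard-core 3-block factor of density `1 / 3`. -/
theorem assumptions {f : (Fin (2 * 1 + 1) → α) → Bool} (hf : Measurable f)
    (hard : ∀ᵐ x ∂((iid ν ℤ).map (bf f)), ∀ i : ℤ, ¬ (x i = true ∧ x (i + 1) = true))
    (hp : ((iid ν ℤ).map (bf f)).real {x | x 0 = true} = 1 / 3) :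
    (∀ᵐ w ∂(iid ν (Fin 4)), ¬ (FF f (w 1) (w 2) (w 3) ∧ FF f (w 0) (w 1) (w 2))) ∧
    (∀ᵐ w ∂(iid ν (Fin 3)), FF f (w 0) (w 1) (w 2) ∨ FF f (w 2) (w 0) (w 1) ∨
      FF f (w 1) (w 2) (w 0)) := by
  have H := window_of_hard ν hf hard
  rw [density_bf ν hf] at hp
  have E := rot_exists ν hf H hp
  have vec : ∀ v : Fin 3 → α, ![v 0, v 1, v 2] = v := by
    intro v
    funext i
    fin_cases i <;> rfl
  constructor
  · filter_upwards [H] with w hw
    have e1 : (![w 1, w 2, w 3] : Fin 3 → α) = fun j => w j.succ := vec fun j => w j.succ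
    have e2 : (![w 0, w 1, w 2] : Fin 3 → α) = fun j => w j.castSucc := vec fun j => w j.castSucc
    unfold FF
    rw [e1, e2]
    exact hw
  · filter_upwards [E] with w hw
    obtain ⟨j, hj⟩ := hw
    unfold FF
    fin_cases j
    · left
      have e : (![w 0, w 1, w 2] : Fin 3 → α) = fun i => w (i - 0) := by
        funext i
        fin_cases i <;> rfl
      rw [e]
      exact hj
    · right; left
      have e : (![w 2, w 0, w 1] : Fin 3 → α) = fun i => w (i - 1) := by
        funext i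
        fin_cases i <;> rfl
      rw [e]
      exact hj
    · right; right
      have e : (![w 1, w 2, w 0] : Fin 3 → α) = fun i => w (i - 2) := by
        funext i
        fin_cases i <;> rfl
      rw [e]
      exact hj

/-- The finite-dimensional laws of an extremal 3-block factor are universal. -/
theorem marginal {f : (Fin (2 * 1 + 1) → α) → Bool} (hf : Measurable f)
    (hard : ∀ᵐ x ∂((iid ν ℤ).map (bf f)), ∀ i : ℤ, ¬ (x i = true ∧ x (i + 1) = true))
    (hp : ((iid ν ℤ).map (bf f)).real {x | x 0 = true} = 1 / 3) (I : Finset ℤ)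
    (S : Set (I → Bool)) (hS : MeasurableSet S) [DecidablePred (· ∈ S)]
    (J : Finset ℤ) (h0 : ∀ i : I, (i : ℤ) ∈ J) (h1 : ∀ i : I, (i : ℤ) - 1 ∈ J)
    (h2 : ∀ i : I, (i : ℤ) - 2 ∈ J) :
    (Fintype.card (Equiv.Perm J) : ℝ) *
      ((iid ν ℤ).map (bf f)).real ((fun x (i : I) => x (i : ℤ)) ⁻¹' S) =
      ((Finset.univ.filter fun σ : J ≃ Fin (Fintype.card J) =>
        pk (fun i : I => (⟨i, h0 i⟩ : J)) (fun i : I => (⟨(i : ℤ) - 1, h1 i⟩ : J))
          (fun i : I => (⟨(i : ℤ) - 2, h2 i⟩ : J)) σ ∈ S).card : ℝ) := by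
  obtain ⟨H, E⟩ := assumptions ν hf hard hp
  rw [← universal ν hf H E (fun i : I => (⟨i, h0 i⟩ : J)) (fun i : I => (⟨(i : ℤ) - 1, h1 i⟩ : J))
    (fun i : I => (⟨(i : ℤ) - 2, h2 i⟩ : J)) (fun i h => by
      have := congrArg Subtype.val h
      simp only at this
      omega) (fun i h => by
      have := congrArg Subtype.val h
      simp only at this
      omega) (fun i h => by
      have := congrArg Subtype.val h
      simp only at this
      omega) hS]
  congr 1
  have mr : Measurable fun (x : ℤ → Bool) (i : I) => x (i : ℤ) := by fun_prop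
  rw [map_measureReal_apply (measurable_bf hf) (mr hS)]
  have mX : Measurable fun (u : J → α) (i : I) => f ![u ⟨i, h0 i⟩, u ⟨(i : ℤ) - 1, h1 i⟩,
      u ⟨(i : ℤ) - 2, h2 i⟩] := by
    refine measurable_pi_iff.2 fun i => hf.comp ?_
    refine measurable_pi_iff.2 fun l => ?_
    fin_cases l
    · exact measurable_pi_apply _
    · exact measurable_pi_apply _
    · exact measurable_pi_apply _
  have h := (mp_inj ν (g := fun j : J => (j : ℤ)) Subtype.val_injective).measure_preimage
    (mX hS).nullMeasurableSet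
  unfold Measure.real
  congr 1
  refine Eq.trans ?_ h
  congr 1
  ext u
  simp only [Set.mem_preimage]
  have e : (fun i : I => bf f u i) = fun i : I => f ![u i, u ((i : ℤ) - 1), u ((i : ℤ) - 2)] := by
    funext i
    unfold bf
    congr 1
    funext l
    fin_cases l
    · simp
    · simp
    · simp
  rw [e]

end

/-- Two hard-core 3-block factors with density `1 / 3` have the same law. -/
theorem unique_law {α β : Type*} [MeasurableSpace α] [MeasurableSpace β] (ν : Measure α)
    [IsProbabilityMeasure ν] (ν' : Measure β) [IsProbabilityMeasure ν']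
    {f : (Fin (2 * 1 + 1) → α) → Bool} (hf : Measurable f)
    (hard : ∀ᵐ x ∂((iid ν ℤ).map (bf f)), ∀ i : ℤ, ¬ (x i = true ∧ x (i + 1) = true))
    (hp : ((iid ν ℤ).map (bf f)).real {x | x 0 = true} = 1 / 3)
    {f' : (Fin (2 * 1 + 1) → β) → Bool} (hf' : Measurable f')
    (hard' : ∀ᵐ x ∂((iid ν' ℤ).map (bf f')), ∀ i : ℤ, ¬ (x i = true ∧ x (i + 1) = true))
    (hp' : ((iid ν' ℤ).map (bf f')).real {x | x 0 = true} = 1 / 3) :
    (iid ν ℤ).map (bf f) = (iid ν' ℤ).map (bf f') := by
  classical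
  have p1 : IsProbabilityMeasure ((iid ν ℤ).map (bf f)) :=
    Measure.isProbabilityMeasure_map (measurable_bf hf).aemeasurable
  have p2 : IsProbabilityMeasure ((iid ν' ℤ).map (bf f')) :=
    Measure.isProbabilityMeasure_map (measurable_bf hf').aemeasurable
  have key : ∀ I : Finset ℤ, ((iid ν ℤ).map (bf f)).map I.restrict =
      ((iid ν' ℤ).map (bf f')).map I.restrict := by
    intro I
    have mr : Measurable (I.restrict : (ℤ → Bool) → (I → Bool)) := Finset.measurable_restrict I
    ext S hS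
    rw [Measure.map_apply mr hS, Measure.map_apply mr hS]
    let J : Finset ℤ := I ∪ (I.image (fun i => i - 1) ∪ I.image (fun i => i - 2))
    have h0 : ∀ i : I, (i : ℤ) ∈ J := fun i => Finset.mem_union_left _ i.2
    have h1 : ∀ i : I, (i : ℤ) - 1 ∈ J := fun i => Finset.mem_union_right _
      (Finset.mem_union_left _ (Finset.mem_image.2 ⟨i, i.2, rfl⟩))
    have h2 : ∀ i : I, (i : ℤ) - 2 ∈ J := fun i => Finset.mem_union_right _
      (Finset.mem_union_right _ (Finset.mem_image.2 ⟨i, i.2, rfl⟩))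
    have a := marginal ν hf hard hp I S hS J h0 h1 h2
    have b := marginal ν' hf' hard' hp' I S hS J h0 h1 h2
    rw [← b] at a
    have c : (Fintype.card (Equiv.Perm J) : ℝ) ≠ 0 := by
      exact_mod_cast Fintype.card_ne_zero
    have d := mul_left_cancel₀ c a
    have e : (I.restrict : (ℤ → Bool) → (I → Bool)) = fun x (i : I) => x (i : ℤ) := rfl
    rw [e]
    unfold Measure.real at d
    exact (ENNReal.toReal_eq_toReal_iff' (measure_ne_top _ _) (measure_ne_top _ _)).1 d
  have : ∀ I : Finset ℤ, IsFiniteMeasure (((iid ν' ℤ).map (bf f')).map I.restrict) := fun I =>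
    inferInstance
  exact IsProjectiveLimit.unique (P := fun I => ((iid ν' ℤ).map (bf f')).map I.restrict)
    (fun I => key I) (fun I => rfl)

end Pool.Agent.H31.HCB
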