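import Mathlib

/-!
# Hard-core block factors: the upper bound

If `f` of a window of `k + 1` independent, identically distributed variables defines a hard-core
process, then `P(f = 1) ≤ ⌊(k + 1) / 2⌋ / (k + 1)`: wrap `k + 1` independent variables around a cycle.
-/

set_option autoImplicit false

open MeasureTheory ProbabilityTheory

namespace Pool.Agent.H31.HCB

/-- A set of residues without two cyclically adjacent elements is small. -/
theorem card_cyc {n : ℕ} (S : Finset (Fin (n + 1))) (h : ∀ j ∈ S, j + 1 ∉ S) :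
    2 * S.card ≤ n + 1 := by
  classical
  have h1 : (S.image fun j => j + 1).card = S.card :=
    Finset.card_image_of_injective _ (add_left_injective 1)
  have h2 : Disjoint S (S.image fun j => j + 1) := by
    rw [Finset.disjoint_left]
    intro a ha hb
    obtain ⟨j, hj, rfl⟩ := Finset.mem_image.1 hb
    exact h j hj ha
  have h3 := Finset.card_union_of_disjoint h2
  have h4 := Finset.card_le_univ (S ∪ S.image fun j => j + 1)
  rw [Fintype.card_fin] at h4
  omega

section

variable {α : Type*} [MeasurableSpace α] (ν : Measure α) [IsProbabilityMeasure ν]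

/-- independent variables with the law `ν`, indexed by `ι` -/
noncomputable abbrev iid (ι : Type*) : Measure (ι → α) := Measure.infinitePi (fun _ : ι => ν)

theorem iid_inj {ι κ : Type*} {g : κ → ι} (hg : Function.Injective g) :
    (iid ν ι).map (fun u i => u (g i)) = iid ν κ :=
  Measure.map_infinitePi_infinitePi_of_inj (P := fun _ : ι => ν) hg

theorem mp_inj {ι κ : Type*} {g : κ → ι} (hg : Function.Injective g) :
    MeasurePreserving (fun (u : ι → α) (i : κ) => u (g i)) (iid ν ι) (iid ν κ) :=
  ⟨by fun_prop, iid_inj ν hg⟩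

theorem mp_split (k : ℕ) (i : Fin (k + 1)) :
    MeasurePreserving (fun w : Fin (k + 1) → α => (w i, fun j : Fin k => w (i.succAbove j)))
      (iid ν (Fin (k + 1))) (ν.prod (iid ν (Fin k))) := by
  have h := measurePreserving_piFinSuccAbove (fun _ : Fin (k + 1) => ν) i
  unfold iid
  rw [Measure.infinitePi_eq_pi, Measure.infinitePi_eq_pi]
  exact h

theorem meas_rot {k : ℕ} {f : (Fin (k + 1) → α) → Bool} (hf : Measurable f) (g : Fin (k + 1) → Fin (k + 1)) :
    Measurable (fun w : Fin (k + 1) → α => f (fun i => w (g i))) :=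
  hf.comp (by fun_prop)

/-- The window `w` and the window with the last entry moved to the front are not both occupied. -/
theorem not_both {k : ℕ} {f : (Fin (k + 1) → α) → Bool} (hf : Measurable f)
    (H : ∀ᵐ w ∂(iid ν (Fin (k + 1 + 1))),
      ¬ (f (fun j => w j.succ) = true ∧ f (fun j => w j.castSucc) = true)) :
    ∀ᵐ w ∂(iid ν (Fin (k + 1))), ¬ (f w = true ∧ f (fun i => w (i - 1)) = true) := by
  classical
  -- the two ways to complete a block of length `k`
  let FL : α × (Fin k → α) → Bool := fun z => f ((MeasurableEquiv.piFinSuccAbove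
    (fun _ : Fin (k + 1) => α) (Fin.last k)).symm z)
  let F0 : α × (Fin k → α) → Bool := fun z => f ((MeasurableEquiv.piFinSuccAbove
    (fun _ : Fin (k + 1) => α) 0).symm z)
  have hFL : Measurable FL := hf.comp (MeasurableEquiv.measurable _)
  have hF0 : Measurable F0 := hf.comp (MeasurableEquiv.measurable _)
  have eL : ∀ w : Fin (k + 1) → α,
      FL (w (Fin.last k), fun j => w ((Fin.last k).succAbove j)) = f w := by
    intro w
    show f ((MeasurableEquiv.piFinSuccAbove (fun _ : Fin (k + 1) => α) (Fin.last k)).symm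
      ((MeasurableEquiv.piFinSuccAbove (fun _ : Fin (k + 1) => α) (Fin.last k)) w)) = f w
    rw [MeasurableEquiv.symm_apply_apply]
  have e0 : ∀ w : Fin (k + 1) → α,
      F0 (w 0, fun j => w ((0 : Fin (k + 1)).succAbove j)) = f w := by
    intro w
    show f ((MeasurableEquiv.piFinSuccAbove (fun _ : Fin (k + 1) => α) 0).symm
      ((MeasurableEquiv.piFinSuccAbove (fun _ : Fin (k + 1) => α) 0) w)) = f w
    rw [MeasurableEquiv.symm_apply_apply]
  -- the hypothesis in terms of a triple (new, (old, block))
  have mp1 := mp_split ν (k + 1) 0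
  have mp2 := mp_split ν k (Fin.last k)
  have mp3 : MeasurePreserving (Prod.map (id : α → α)
      (fun w : Fin (k + 1) → α => (w (Fin.last k), fun j : Fin k => w ((Fin.last k).succAbove j))))
      (ν.prod (iid ν (Fin (k + 1)))) (ν.prod (ν.prod (iid ν (Fin k)))) :=
    (MeasurePreserving.id ν).prod mp2
  have mp4 := mp3.comp mp1
  have hB : MeasurableSet {t : α × (α × (Fin k → α)) | ¬ (FL t.2 = true ∧ F0 (t.1, t.2.2) = true)} := by
    have m1 : Measurable (fun t : α × (α × (Fin k → α)) => (FL t.2, F0 (t.1, t.2.2))) :=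
      (hFL.comp measurable_snd).prodMk (hF0.comp (by fun_prop))
    exact m1 (MeasurableSet.of_discrete (s := {p : Bool × Bool | ¬ (p.1 = true ∧ p.2 = true)}))
  have H1 : ∀ᵐ t ∂(ν.prod (ν.prod (iid ν (Fin k)))), ¬ (FL t.2 = true ∧ F0 (t.1, t.2.2) = true) := by
    rw [← mp4.map_eq, ae_map_iff mp4.measurable.aemeasurable hB]
    filter_upwards [H] with w hw
    have a1 : FL (w (Fin.last k).succ, fun j : Fin k => w ((Fin.last k).succAbove j).succ) =
        f (fun j => w j.succ) := eL (fun j => w j.succ)
    have a2 : F0 (w 0, fun j : Fin k => w ((Fin.last k).succAbove j).succ) =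
        f (fun j => w j.castSucc) := by
      rw [← e0 (fun j => w j.castSucc)]
      congr 2
      funext j
      simp
    have a3 : ((Prod.map (id : α → α)
      (fun w : Fin (k + 1) → α => (w (Fin.last k), fun j : Fin k => w ((Fin.last k).succAbove j)))) ∘
      (fun w : Fin (k + 1 + 1) → α => (w 0, fun j : Fin (k + 1) => w ((0 : Fin (k + 2)).succAbove j)))) w
      = (w 0, (w (Fin.last k).succ, fun j : Fin k => w ((Fin.last k).succAbove j).succ)) := by
      simp [Prod.map]
    rw [a3]
    show ¬ (FL (w (Fin.last k).succ, fun j : Fin k => w ((Fin.last k).succAbove j).succ) = true ∧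
      F0 (w 0, fun j : Fin k => w ((Fin.last k).succAbove j).succ) = true)
    rw [a1, a2]
    exact hw
  have H2 : ∀ᵐ z ∂(ν.prod (iid ν (Fin k))), ∀ᵐ x ∂ν, ¬ (FL z = true ∧ F0 (x, z.2) = true) := by
    have h := Measure.ae_ae_of_ae_prod H1
    exact (Measure.ae_ae_comm (p := fun (x : α) (z : α × (Fin k → α)) =>
      ¬ (FL z = true ∧ F0 (x, z.2) = true)) hB).1 h
  -- blocks which cannot be followed
  let N : Set (Fin k → α) := {v | ν {x | F0 (x, v) = true} = 0}
  have hN : MeasurableSet N := by
    have h1 : MeasurableSet {z : α × (Fin k → α) | F0 z = true} :=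
      hF0 (MeasurableSet.of_discrete (s := {true}))
    have h2 : Measurable (fun v : Fin k → α => ν ((fun x => (x, v)) ⁻¹' {z | F0 z = true})) :=
      measurable_measure_prodMk_right h1
    exact h2 (measurableSet_singleton 0)
  have H3 : ∀ᵐ z ∂(ν.prod (iid ν (Fin k))), FL z = true → z.2 ∈ N := by
    filter_upwards [H2] with z hz hL
    show ν {x | F0 (x, z.2) = true} = 0
    rw [ae_iff] at hz
    refine measure_mono_null ?_ hz
    intro x hx
    simp only [Set.mem_ofPred_eq] at hx ⊢
    exact not_not.2 ⟨hL, hx⟩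
  have H4 : ∀ᵐ z ∂(ν.prod (iid ν (Fin k))), z.2 ∈ N → ¬ (F0 z = true) := by
    have hm : MeasurableSet {z : α × (Fin k → α) | z.2 ∈ N → ¬ (F0 z = true)} := by
      have h1 : MeasurableSet {z : α × (Fin k → α) | F0 z = true} :=
        hF0 (MeasurableSet.of_discrete (s := {true}))
      have h2 : MeasurableSet {z : α × (Fin k → α) | z.2 ∈ N} := measurable_snd hN
      have e : {z : α × (Fin k → α) | z.2 ∈ N → ¬ (F0 z = true)} =
          {z : α × (Fin k → α) | z.2 ∈ N}ᶜ ∪ {z : α × (Fin k → α) | F0 z = true}ᶜ := by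
        ext z
        simp only [Set.mem_ofPred_eq, Set.mem_union, Set.mem_compl_iff]
        tauto
      rw [e]
      exact h2.compl.union h1.compl
    have h3 : ∀ᵐ v ∂(iid ν (Fin k)), ∀ᵐ x ∂ν, v ∈ N → ¬ (F0 (x, v) = true) := by
      refine Filter.Eventually.of_forall fun v => ?_
      by_cases hv : v ∈ N
      · have h4 : ∀ᵐ x ∂ν, ¬ (F0 (x, v) = true) := by
          rw [ae_iff]
          have hv' : ν {x | F0 (x, v) = true} = 0 := hv
          simpa using hv'
        filter_upwards [h4] with x hx _
        exact hx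
      · exact Filter.Eventually.of_forall fun x h => absurd h hv
    have h5 : ∀ᵐ x ∂ν, ∀ᵐ v ∂(iid ν (Fin k)), v ∈ N → ¬ (F0 (x, v) = true) :=
      (Measure.ae_ae_comm (p := fun (x : α) (v : Fin k → α) => v ∈ N → ¬ (F0 (x, v) = true)) hm).2 h3
    rw [Measure.ae_prod_iff_ae_ae hm]
    exact h5
  have H5 : ∀ᵐ z ∂(ν.prod (iid ν (Fin k))), ¬ (FL z = true ∧ F0 z = true) := by
    filter_upwards [H3, H4] with z h3 h4 h
    exact h4 (h3 h.1) h.2
  have H6 := mp2.quasiMeasurePreserving.ae H5
  filter_upwards [H6] with w hw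
  rw [eL w] at hw
  have e1 : F0 (w (Fin.last k), fun j => w ((Fin.last k).succAbove j)) = f (fun i => w (i - 1)) := by
    rw [← e0 (fun i => w (i - 1))]
    congr 2
    · congr 1
      exact eq_sub_of_add_eq (Fin.last_add_one k)
    · funext j
      congr 1
      rw [Fin.succAbove_last, Fin.succAbove_zero]
      exact eq_sub_of_add_eq (Fin.coeSucc_eq_succ)
  rw [e1] at hw
  exact hw

/-- The key bound: `P(f = 1) ≤ m / (2 m + 1)` for windows of length `2 m + 1`. -/
theorem window_bound (m : ℕ) {f : (Fin (2 * m + 1) → α) → Bool} (hf : Measurable f)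
    (H : ∀ᵐ w ∂(iid ν (Fin (2 * m + 1 + 1))),
      ¬ (f (fun j => w j.succ) = true ∧ f (fun j => w j.castSucc) = true)) :
    (iid ν (Fin (2 * m + 1))).real {w | f w = true} ≤ m / (2 * m + 1) := by
  classical
  have h1 := not_both ν hf H
  -- the rotated windows
  have hinj : ∀ j : Fin (2 * m + 1), Function.Injective (fun i : Fin (2 * m + 1) => i - j) :=
    fun j => sub_left_injective
  have mp : ∀ j : Fin (2 * m + 1), MeasurePreserving
      (fun (w : Fin (2 * m + 1) → α) (i : Fin (2 * m + 1)) => w (i - j))
      (iid ν (Fin (2 * m + 1))) (iid ν (Fin (2 * m + 1))) := fun j => mp_inj ν (hinj j)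
  have h2 : ∀ᵐ w ∂(iid ν (Fin (2 * m + 1))), ∀ j : Fin (2 * m + 1),
      ¬ (f (fun i => w (i - j)) = true ∧ f (fun i => w (i - (j + 1))) = true) := by
    rw [ae_all_iff]
    intro j
    have := (mp j).quasiMeasurePreserving.ae h1
    filter_upwards [this] with w hw
    have e : (fun i : Fin (2 * m + 1) => w (i - 1 - j)) = fun i => w (i - (j + 1)) := by
      funext i
      congr 1
      abel
    rw [e] at hw
    exact hw
  have hms : ∀ j : Fin (2 * m + 1), MeasurableSet
      {w : Fin (2 * m + 1) → α | f (fun i => w (i - j)) = true} := fun j =>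
    (meas_rot hf (fun i => i - j)) (MeasurableSet.of_discrete (s := {true}))
  have h3 : ∀ j : Fin (2 * m + 1), (iid ν (Fin (2 * m + 1))).real
      {w | f (fun i => w (i - j)) = true} = (iid ν (Fin (2 * m + 1))).real {w | f w = true} := by
    intro j
    have hs : MeasurableSet {w : Fin (2 * m + 1) → α | f w = true} :=
      hf (MeasurableSet.of_discrete (s := {true}))
    have := (mp j).measure_preimage hs.nullMeasurableSet
    unfold Measure.real
    rw [← this]
    rfl
  set p := (iid ν (Fin (2 * m + 1))).real {w | f w = true} with hp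
  have h4 : ∫ w, ∑ j : Fin (2 * m + 1), ({w : Fin (2 * m + 1) → α | f (fun i => w (i - j)) = true}).indicator
      (fun _ => (1 : ℝ)) w ∂(iid ν (Fin (2 * m + 1))) = (2 * m + 1) * p := by
    rw [integral_finsetSum]
    · have : ∀ j : Fin (2 * m + 1), ∫ w, ({w : Fin (2 * m + 1) → α | f (fun i => w (i - j)) = true}).indicator
          (fun _ => (1 : ℝ)) w ∂(iid ν (Fin (2 * m + 1))) = p := by
        intro j
        rw [← h3 j]
        exact integral_indicator_one (hms j)
      rw [Finset.sum_congr rfl fun j _ => this j]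
      simp
    · intro j _
      exact (integrable_const (1 : ℝ)).indicator (hms j)
  have h5 : ∫ w, ∑ j : Fin (2 * m + 1), ({w : Fin (2 * m + 1) → α | f (fun i => w (i - j)) = true}).indicator
      (fun _ => (1 : ℝ)) w ∂(iid ν (Fin (2 * m + 1))) ≤ ∫ _w, (m : ℝ) ∂(iid ν (Fin (2 * m + 1))) := by
    apply integral_mono_ae
    · exact integrable_finsetSum _ fun j _ => (integrable_const (1 : ℝ)).indicator (hms j)
    · exact integrable_const _
    · filter_upwards [h2] with w hw
      have hc := card_cyc (Finset.univ.filter fun j : Fin (2 * m + 1) =>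
        f (fun i => w (i - j)) = true) (by
          intro j hj hj'
          rw [Finset.mem_filter] at hj hj'
          exact hw j ⟨hj.2, hj'.2⟩)
      have e : ∑ j : Fin (2 * m + 1), ({w : Fin (2 * m + 1) → α | f (fun i => w (i - j)) = true}).indicator
          (fun _ => (1 : ℝ)) w = ((Finset.univ.filter fun j : Fin (2 * m + 1) =>
        f (fun i => w (i - j)) = true).card : ℝ) := by
        rw [Finset.card_eq_sum_ones, Finset.sum_filter]
        push_cast
        refine Finset.sum_congr rfl fun j _ => ?_
        simp only [Set.indicator, Set.mem_ofPred_eq]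
      show _ ≤ (m : ℝ)
      rw [e]
      exact_mod_cast (by omega : (Finset.univ.filter fun j : Fin (2 * m + 1) =>
        f (fun i => w (i - j)) = true).card ≤ m)
  rw [h4] at h5
  simp only [integral_const, probReal_univ, smul_eq_mul, one_mul] at h5
  rw [le_div_iff₀ (by positivity)]
  linarith

end

end Pool.Agent.H31.HCB
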